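import Pool.Agent.NH49.TA.M2

set_option autoImplicit false
set_option linter.unusedSectionVars false

open Filter Topology Set Metric unitInterval

namespace Pool.Agent.NH49.TB

open Pool.Agent.H721R2 Pool.Agent.H789R2.AN Pool.Agent.H789R2.GP Pool.Agent.TH304.K289
open Pool.Agent.TH289.L Pool.Agent.TH289 Pool.Agent.TH289.K
open Pool.Agent.Y330.G Pool.Agent.Y330.H Pool.Agent.Y330.J Pool.Agent.NH49.TA

section gen

variable {X : Type*} [MetricSpace X] {G : Type*} [AddCommGroup G] {A : G → X ≃ₜ X}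

theorem mem_insert_closure' {F : Set G} {v w : G}
    (h : w ∈ AddSubmonoid.closure (insert v F)) :
    ∃ τ ∈ AddSubmonoid.closure F, ∃ m : ℕ, w = m • v + τ := by
  rw [Set.insert_eq, AddSubmonoid.closure_union, AddSubmonoid.mem_sup] at h
  obtain ⟨y, hy, z, hz, rfl⟩ := h
  obtain ⟨m, rfl⟩ := AddSubmonoid.mem_closure_singleton.1 hy
  exact ⟨z, hz, m, rfl⟩

theorem Ch.append {St : X → X → Prop} : ∀ (n m : ℕ) (x y z : X), Ch St n x y → Ch St m y z →
    Ch St (n + m) x z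
  | 0, m, x, y, z, h1, h2 => by
    have h3 : x = y := h1
    rw [h3, Nat.zero_add]
    exact h2
  | n + 1, m, x, y, z, ⟨w, h1, h2⟩, h3 => by
    rw [Nat.add_right_comm]
    exact ⟨w, h1, Ch.append n m w y z h2 h3⟩

theorem Ch.pull {St : X → X → Prop} (φ : X ≃ₜ X) : ∀ (n : ℕ) (x y : X), Ch St n (φ x) (φ y) →
    Ch (fun x z => St (φ x) (φ z)) n x y
  | 0, _, _, h => φ.injective h
  | n + 1, x, y, ⟨w, h1, h2⟩ => by
    refine ⟨φ.symm w, ?_, Ch.pull φ n _ _ ?_⟩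
    · show St (φ x) (φ (φ.symm w))
      rwa [φ.apply_symm_apply]
    · rwa [φ.apply_symm_apply]

/-- all sign choices for a list -/
def Fam [DecidableEq G] : List G → Finset G → Set (Finset G)
  | [], F => {F}
  | c :: L, F => Fam L (insert c F) ∪ Fam L (insert (-c) F)

theorem fam_mem [DecidableEq G] : ∀ (L : List G) (F F' : Finset G), F' ∈ Fam L F →
    F ⊆ F' ∧ ∀ c ∈ L, c ∈ F' ∨ -c ∈ F'
  | [], F, F', h => by
    have h1 : F' = F := h
    subst h1
    exact ⟨subset_rfl, fun c hc => absurd hc List.not_mem_nil⟩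
  | c :: L, F, F', h => by
    rcases h with h | h
    · obtain ⟨h1, h2⟩ := fam_mem L _ _ h
      refine ⟨(Finset.subset_insert _ _).trans h1, fun d hd => ?_⟩
      rcases List.mem_cons.1 hd with rfl | hd
      · exact Or.inl (h1 (Finset.mem_insert_self _ _))
      · exact h2 d hd
    · obtain ⟨h1, h2⟩ := fam_mem L _ _ h
      refine ⟨(Finset.subset_insert _ _).trans h1, fun d hd => ?_⟩
      rcases List.mem_cons.1 hd with rfl | hd
      · exact Or.inr (h1 (Finset.mem_insert_self _ _))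
      · exact h2 d hd

theorem fam_all [DecidableEq G] {Pr : G → Prop} : ∀ (L : List G) (F F' : Finset G),
    (∀ u ∈ F, Pr u) → (∀ c ∈ L, Pr c ∧ Pr (-c)) → F' ∈ Fam L F → ∀ u ∈ F', Pr u
  | [], F, F', hF, _, h => by
    have h1 : F' = F := h
    subst h1
    exact hF
  | c :: L, F, F', hF, hL, h => by
    have h0 := hL c List.mem_cons_self
    rcases h with h | h
    · refine fam_all L _ F' (fun u hu => ?_) (fun d hd => hL d (List.mem_cons_of_mem _ hd)) h
      rcases Finset.mem_insert.1 hu with rfl | hu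
      · exact h0.1
      · exact hF u hu
    · refine fam_all L _ F' (fun u hu => ?_) (fun d hd => hL d (List.mem_cons_of_mem _ hd)) h
      rcases Finset.mem_insert.1 hu with rfl | hu
      · exact h0.2
      · exact hF u hu

theorem fam_min [DecidableEq G] {Pr : Finset G → ℝ → Prop}
    (hm : ∀ F' η η', η' ≤ η → Pr F' η → Pr F' η') : ∀ (L : List G) (F : Finset G),
    (∀ F' ∈ Fam L F, ∃ η > 0, Pr F' η) → ∃ η > 0, ∀ F' ∈ Fam L F, Pr F' η
  | [], F, h => by
    obtain ⟨η, hη, h1⟩ := h F rfl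
    refine ⟨η, hη, fun F' hF' => ?_⟩
    have h2 : F' = F := hF'
    subst h2
    exact h1
  | c :: L, F, h => by
    obtain ⟨η, hη, h1⟩ := fam_min hm L (insert c F) fun F' hF' => h F' (Or.inl hF')
    obtain ⟨η', hη', h2⟩ := fam_min hm L (insert (-c) F) fun F' hF' => h F' (Or.inr hF')
    refine ⟨min η η', lt_min hη hη', fun F' hF' => ?_⟩
    rcases hF' with hF' | hF'
    · exact hm _ _ _ (min_le_left _ _) (h1 F' hF')
    · exact hm _ _ _ (min_le_right _ _) (h2 F' hF')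

end gen

section sys

variable {X F : Type*} [MetricSpace X] [CompactSpace X] [NormedAddCommGroup F] [NormedSpace ℝ F]
  [FiniteDimensional ℝ F]
  {G J : Type*} [AddCommGroup G] {A : G → X ≃ₜ X} {e : X → F} {Vp Vn : G → X → Submodule ℝ F}

/-- `A u` is hyperbolic -/
def Hy (A : G → X ≃ₜ X) (e : X → F) (Vp Vn : G → X → Submodule ℝ F) (u : G) : Prop :=
  ∃ S : HypSys X F, S.g = A u ∧ S.e = e ∧ (∀ x, S.Vs x = Vn u x) ∧ ∀ x, S.Vu x = Vp u x

theorem Hy.lp {u : G} (h : Hy A e Vp Vn u) : ∃ c, LP (A u) c := by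
  obtain ⟨S, h1, -⟩ := h
  rw [← h1]
  exact exists_LP S

/-- good elements -/
def Gd (A : G → X ≃ₜ X) (e : X → F) (Vp Vn : G → X → Submodule ℝ F) (χ : J → G →+ ℝ) (u : G) :
    Prop := Hy A e Vp Vn u ∧ ∀ l, χ l u ≠ 0

/-- all `χ l` which are negative on `F` are negative at `v` -/
def Ind (χ : J → G →+ ℝ) (F : Finset G) (v : G) : Prop := ∀ l, (∀ u ∈ F, χ l u < 0) → χ l v < 0

/-- the hypothesis on the splitting -/
def Spl (Vp Vn : G → X → Submodule ℝ F) (χ : J → G →+ ℝ) : Prop :=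
  ∀ (F : Finset G) (v : G), (∀ u ∈ F, ∀ l, χ l u ≠ 0) → (∀ l, χ l v ≠ 0) → Ind χ F v →
    ∀ x w, (∀ u ∈ F, w ∈ Vn u x) → w ∈ Vp v x → w = 0

variable {χ : J → G →+ ℝ}

theorem sep_fin (hA : Act A) (hSpl : Spl Vp Vn χ) (F : Finset G)
    (hF : ∀ u ∈ F, Gd A e Vp Vn χ u) {v : G} (hv : Gd A e Vp Vn χ v) (h : Ind χ F v) :
    ∃ ε > 0, ∀ x y, WR A (AddSubmonoid.closure (insert (-v) (F : Set G))) ε x y → x = y := by
  classical
  choose S hS1 hS2 hS3 hS4 using fun u : F => (hF u.1 u.2).1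
  obtain ⟨Sv, v1, v2, v3, v4⟩ := hv.1
  let Sy : Option F → HypSys X _ := fun o => o.elim Sv.symm S
  obtain ⟨ls, ε, hε, hsep⟩ := sep_of_inf Sy e (by
    intro i x
    cases i with
    | none => show Sv.e x = e x; rw [v2]
    | some k => show (S k).e x = e x; rw [hS2]) (by
    intro x
    rw [iInf_option, eq_bot_iff]
    rintro w ⟨hw1, hw2⟩
    have h1 : w ∈ Vp v x := by
      rw [← v4]
      exact hw1
    refine hSpl F v (fun u hu => (hF u hu).2) hv.2 h x w (fun u hu => ?_) h1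
    rw [← hS3 ⟨u, hu⟩]
    exact (Submodule.mem_iInf _).1 hw2 ⟨u, hu⟩)
  refine ⟨ε, hε, fun x y hxy => hsep x y fun j _ => ?_⟩
  have key : ∀ u ∈ insert (-v) (F : Set G), SR (A u) ε x y := by
    intro u hu
    rw [hA.sr]
    intro k
    exact hxy _ (nsmul_mem (AddSubmonoid.subset_closure hu) k)
  cases j with
  | none =>
    show SR Sv.g.symm ε x y
    rw [v1, hA.symm_eq]
    exact key _ (Set.mem_insert _ _)
  | some k =>
    show SR (S k).g ε x y
    rw [hS1]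
    exact key _ (Set.mem_insert_of_mem _ k.2)

/-- displacements contracted by `F` are contracted by `v` -/
theorem contr (hA : Act A) (hSpl : Spl Vp Vn χ) (F : Finset G)
    (hF : ∀ u ∈ F, Gd A e Vp Vn χ u) {v : G} (hv : Gd A e Vp Vn χ v) (h : Ind χ F v) {ε : ℝ}
    (hε : 0 < ε) : ∃ η > 0, ∀ x y, WR A (AddSubmonoid.closure (F : Set G)) η x y →
      ∀ m : ℕ, WR A (AddSubmonoid.closure (F : Set G)) ε (A (m • v) x) (A (m • v) y) := by
  obtain ⟨ε₁, hε₁, hsep⟩ := sep_fin hA hSpl F hF hv h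
  obtain ⟨c', hc'⟩ := hv.1.lp
  obtain ⟨η, hη, h1⟩ := dec hA hc' F (lt_min hε hε₁)
  refine ⟨η, hη, fun x y hxy m => ?_⟩
  obtain ⟨z, hz1, hz2⟩ := h1 x y hxy
  have e1 : z = y := by
    apply hsep
    intro w hw
    obtain ⟨τ, hτ, m, rfl⟩ := mem_insert_closure hw
    rw [hA, hA]
    exact (hz2 m τ hτ).trans (min_le_right _ _)
  rw [← e1]
  exact (hz1 m).mono le_rfl (min_le_left _ _)

theorem contr_set (hA : Act A) (hSpl : Spl Vp Vn χ) (F : Finset G)
    (hF : ∀ u ∈ F, Gd A e Vp Vn χ u) (F' : Finset G)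
    (hF' : ∀ v ∈ F', Gd A e Vp Vn χ v ∧ Ind χ F v) : ∀ {ε : ℝ}, 0 < ε → ∃ η > 0, ∀ x y,
      WR A (AddSubmonoid.closure (F : Set G)) η x y →
      ∀ u ∈ AddSubmonoid.closure (F' : Set G),
        WR A (AddSubmonoid.closure (F : Set G)) ε (A u x) (A u y) := by
  classical
  induction F' using Finset.induction_on with
  | empty =>
    intro ε hε
    refine ⟨ε, hε, fun x y hxy u hu => ?_⟩
    rw [Finset.coe_empty, AddSubmonoid.closure_empty, AddSubmonoid.mem_bot] at hu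
    rw [hu, hA.zero, hA.zero]
    exact hxy
  | insert v F'' _ ih =>
    intro ε hε
    obtain ⟨η₁, hη₁, h1⟩ := contr hA hSpl F hF (hF' v (Finset.mem_insert_self _ _)).1
      (hF' v (Finset.mem_insert_self _ _)).2 hε
    obtain ⟨η, hη, h2⟩ := ih (fun u hu => hF' u (Finset.mem_insert_of_mem hu)) hη₁
    refine ⟨η, hη, fun x y hxy u hu => ?_⟩
    rw [Finset.coe_insert] at hu
    obtain ⟨τ, hτ, m, rfl⟩ := mem_insert_closure' hu
    rw [hA, hA]
    exact h1 _ _ (h2 x y hxy τ hτ) m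

theorem contr_to (hA : Act A) (hSpl : Spl Vp Vn χ) (F : Finset G)
    (hF : ∀ u ∈ F, Gd A e Vp Vn χ u) (F' : Finset G)
    (hF' : ∀ v ∈ F', Gd A e Vp Vn χ v ∧ Ind χ F v) {ε : ℝ} (hε : 0 < ε) : ∃ η > 0, ∀ x y,
      WR A (AddSubmonoid.closure (F : Set G)) η x y →
      WR A (AddSubmonoid.closure (F' : Set G)) ε x y := by
  obtain ⟨η, hη, h⟩ := contr_set hA hSpl F hF F' hF' hε
  exact ⟨η, hη, fun x y hxy u hu => (h x y hxy u hu).dle hA⟩

/-- decomposition into displacements with given signs -/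
theorem chain_fam [DecidableEq G] (hA : Act A) : ∀ (L : List G) (F : Finset G),
    (∀ c ∈ L, ∃ c', LP (A c) c') → ∀ ε > 0, ∃ η > 0, ∀ x y,
      WR A (AddSubmonoid.closure (F : Set G)) η x y →
      Ch (fun x z => ∃ F' ∈ Fam L F, WR A (AddSubmonoid.closure (F' : Set G)) ε x z)
        (2 ^ L.length) x y
  | [], F, _, ε, hε => ⟨ε, hε, fun x y hxy => ⟨y, ⟨F, rfl, hxy⟩, rfl⟩⟩
  | c :: L, F, hL, ε, hε => by
    obtain ⟨η₁, hη₁, h1⟩ := chain_fam hA L (insert c F)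
      (fun d hd => hL d (List.mem_cons_of_mem _ hd)) ε hε
    obtain ⟨η₂, hη₂, h2⟩ := chain_fam hA L (insert (-c) F)
      (fun d hd => hL d (List.mem_cons_of_mem _ hd)) ε hε
    obtain ⟨c', hc'⟩ := hL c List.mem_cons_self
    obtain ⟨η, hη, h3⟩ := dec hA hc' F (lt_min hη₁ hη₂)
    refine ⟨η, hη, fun x y hxy => ?_⟩
    obtain ⟨z, hz1, hz2⟩ := h3 x y hxy
    have k1 := h1 x z (by
      intro w hw
      rw [Finset.coe_insert] at hw
      obtain ⟨τ, hτ, m, rfl⟩ := mem_insert_closure' hw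
      rw [add_comm, hA, hA]
      exact (hz1 m τ hτ).trans (min_le_left _ _))
    have k2 := h2 z y (by
      intro w hw
      rw [Finset.coe_insert] at hw
      obtain ⟨τ, hτ, m, rfl⟩ := mem_insert_closure hw
      rw [hA, hA]
      exact (hz2 m τ hτ).trans (min_le_right _ _))
    have e1 : 2 ^ (c :: L).length = 2 ^ L.length + 2 ^ L.length := by
      rw [List.length_cons, pow_succ]
      ring
    rw [e1]
    refine Ch.append _ _ _ z _ (Ch.mono ?_ _ _ _ k1) (Ch.mono ?_ _ _ _ k2)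
    · rintro u w ⟨F', hF', h4⟩
      exact ⟨F', Or.inl hF', h4⟩
    · rintro u w ⟨F', hF', h4⟩
      exact ⟨F', Or.inr hF', h4⟩

/-- decomposition into displacements of given types -/
theorem chain_types [DecidableEq G] (hA : Act A) (hSpl : Spl Vp Vn χ) {ι : Type*}
    (U : ι → Finset G) (hU : ∀ k, ∀ v ∈ U k, Gd A e Vp Vn χ v) (L : List G) (F : Finset G)
    (hF : ∀ u ∈ F, Gd A e Vp Vn χ u)
    (hL : ∀ c ∈ L, Gd A e Vp Vn χ c ∧ Gd A e Vp Vn χ (-c))
    (htype : ∀ F' ∈ Fam L F, ∃ k, ∀ v ∈ U k, Ind χ F' v) {ε : ℝ} (hε : 0 < ε) :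
    ∃ η > 0, ∀ x y, WR A (AddSubmonoid.closure (F : Set G)) η x y →
      Ch (fun x z => ∃ k, WR A (AddSubmonoid.closure (U k : Set G)) ε x z)
        (2 ^ L.length) x y := by
  obtain ⟨η₀, hη₀, h0⟩ := fam_min (Pr := fun F' η => ∃ k, ∀ x y,
      WR A (AddSubmonoid.closure (F' : Set G)) η x y →
      WR A (AddSubmonoid.closure (U k : Set G)) ε x y) (by
    rintro F' η η' hη ⟨k, hk⟩
    exact ⟨k, fun x y hxy => hk x y (hxy.mono le_rfl hη)⟩) L F (by
    intro F' hF'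
    obtain ⟨k, hk⟩ := htype F' hF'
    obtain ⟨η, hη, h1⟩ := contr_to hA hSpl F' (fam_all L F F' hF hL hF') (U k)
      (fun v hv => ⟨hU k v hv, hk v hv⟩) hε
    exact ⟨η, hη, k, h1⟩)
  obtain ⟨η, hη, h1⟩ := chain_fam hA L F (fun c hc => (hL c hc).1.1.lp) η₀ hη₀
  refine ⟨η, hη, fun x y hxy => Ch.mono ?_ _ _ _ (h1 x y hxy)⟩
  rintro u w ⟨F', hF', h2⟩
  obtain ⟨k, hk⟩ := h0 F' hF'
  exact ⟨k, hk u w h2⟩

end sys

end Pool.Agent.NH49.TB
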