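import Pool.Agent.NH49.TB.T1

set_option autoImplicit false
set_option linter.unusedSectionVars false

open Filter Topology Set Metric unitInterval

namespace Pool.Agent.NH49.TB

open Pool.Agent.H721R2 Pool.Agent.H789R2.AN Pool.Agent.H789R2.GP Pool.Agent.TH304.K289
open Pool.Agent.TH289.L Pool.Agent.TH289 Pool.Agent.TH289.K
open Pool.Agent.Y330.G Pool.Agent.Y330.H Pool.Agent.Y330.J Pool.Agent.NH49.TA

section gen

variable {X : Type*} [MetricSpace X] {G : Type*} [AddCommGroup G] {A : G → X ≃ₜ X}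

/-- closeness with respect to the submonoid generated by a finite set -/
abbrev WF (A : G → X ≃ₜ X) (F : Finset G) (ε : ℝ) (x y : X) : Prop :=
  WR A (AddSubmonoid.closure (F : Set G)) ε x y

theorem wf_sr (hA : Act A) {F : Finset G} {b : G} (hb : b ∈ F) {ε : ℝ} {x y : X}
    (h : WF A F ε x y) : SR (A b) ε x y :=
  (hA.sr b).2 fun k => h _ (nsmul_mem (AddSubmonoid.subset_closure (Finset.mem_coe.2 hb)) k)

theorem wf_srn (hA : Act A) {F : Finset G} {b : G} (hb : -b ∈ F) {ε : ℝ} {x y : X}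
    (h : WF A F ε x y) : SR (A b).symm ε x y :=
  (hA.sr_symm b).2 fun k => by
    have := h _ (nsmul_mem (AddSubmonoid.subset_closure (Finset.mem_coe.2 hb)) k)
    rwa [smul_neg] at this

theorem sr_wf (hA : Act A) {b : G} {ε : ℝ} {x y : X} (h : SR (A b) ε x y) :
    WF A {b} ε x y := by
  intro w hw
  rw [Finset.coe_singleton, AddSubmonoid.mem_closure_singleton] at hw
  obtain ⟨k, rfl⟩ := hw
  exact (hA.sr b).1 h k

theorem srn_wf (hA : Act A) {b : G} {ε : ℝ} {x y : X} (h : SR (A b).symm ε x y) :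
    WF A {-b} ε x y := by
  intro w hw
  rw [Finset.coe_singleton, AddSubmonoid.mem_closure_singleton] at hw
  obtain ⟨k, rfl⟩ := hw
  rw [smul_neg]
  exact (hA.sr_symm b).1 h k

theorem wf_fw (hA : Act A) {F : Finset G} {b : G} (hb : b ∈ F) {c : ℝ} (hg : LP (A b) c)
    {x y : X} (h : WF A F c x y) (k : ℕ) : WF A F (c * (1 / 2) ^ k) (A (k • b) x) (A (k • b) y) := by
  intro w hw
  have h1 : SR (A b) c (A w x) (A w y) := wf_sr hA hb (h.map hA hw)
  have h2 := hg.cS _ _ h1 k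
  rwa [hA.iter, hA.iter, hA.comm, hA.comm (k • b)] at h2

theorem wf_bw (hA : Act A) {F : Finset G} {b : G} (hb : -b ∈ F) {c : ℝ} (hg : LP (A b) c)
    {x y : X} (h : WF A F c x y) (k : ℕ) :
    WF A F (c * (1 / 2) ^ k) (A (-(k • b)) x) (A (-(k • b)) y) := by
  intro w hw
  have h1 : SR (A b).symm c (A w x) (A w y) := wf_srn hA hb (h.map hA hw)
  have h2 := hg.cU _ _ h1 k
  rwa [hA.iter_symm, hA.iter_symm, hA.comm, hA.comm (-(k • b))] at h2

theorem wf_fw' (hA : Act A) {F : Finset G} {b : G} (hb : b ∈ F) {ε : ℝ} {i j : ℕ} (hij : i ≤ j)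
    {x y : X} (h : WF A F ε (A (i • b) x) (A (i • b) y)) :
    WF A F ε (A (j • b) x) (A (j • b) y) := by
  have h1 := h.map hA (nsmul_mem (AddSubmonoid.subset_closure (Finset.mem_coe.2 hb)) (j - i))
  rwa [← hA, ← hA, ← add_smul, Nat.sub_add_cancel hij] at h1

theorem wf_bw' (hA : Act A) {F : Finset G} {b : G} (hb : -b ∈ F) {ε : ℝ} {i j : ℕ} (hij : i ≤ j)
    {x y : X} (h : WF A F ε (A (-(i • b)) x) (A (-(i • b)) y)) :
    WF A F ε (A (-(j • b)) x) (A (-(j • b)) y) := by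
  have h1 := h.map hA (nsmul_mem (AddSubmonoid.subset_closure (Finset.mem_coe.2 hb)) (j - i))
  rwa [← hA, ← hA, smul_neg, ← neg_add, ← add_smul, Nat.sub_add_cancel hij] at h1

theorem qj_act [CompactSpace X] (hA : Act A) {b : G} {x w z v : X} (h : QJ (A b) x w z v) (u : G) :
    QJ (A b) (A u x) (A u w) (A u z) (A u v) := by
  have := h.iter (φ := A u) (fun w => hA.comm _ _ _) 1
  simpa using this

end gen

section sys

variable {X F : Type*} [MetricSpace X] [CompactSpace X] [NormedAddCommGroup F] [NormedSpace ℝ F]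
  [FiniteDimensional ℝ F]
  {G J : Type*} [AddCommGroup G] {A : G → X ≃ₜ X} {e : X → F} {Vp Vn : G → X → Submodule ℝ F}
  {χ : J → G →+ ℝ}

/-- exchange of an unstable and a stable displacement -/
theorem swap (hA : Act A) (hSpl : Spl Vp Vn χ) {β : G} {c c₁ : ℝ} (hg : LP (A β) c)
    (T : QS (A β) c₁) (hc₁ : 0 < c₁) (hT : T.Q = QJ (A β)) {Uk Sj F' : Finset G}
    (hUk : ∀ u ∈ Uk, Gd A e Vp Vn χ u) (hSj : ∀ u ∈ Sj, Gd A e Vp Vn χ u)
    (hF' : ∀ u ∈ F', Gd A e Vp Vn χ u) (hβU : -β ∈ Uk) (hβS : β ∈ Sj)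
    (i1 : ∀ v ∈ F', Ind χ Sj v ∧ Ind χ Uk v)
    (i2 : ∀ v ∈ Uk, ∀ l, χ l (-β) < 0 → (∀ u ∈ F', χ l u < 0) → χ l v < 0)
    {a : G} {P Q' P' : ℕ} (a0 : Gd A e Vp Vn χ a) (a0' : Ind χ Uk a)
    (a1 : Gd A e Vp Vn χ (a - P • β)) (a1' : Ind χ Sj (a - P • β))
    (a2 : Gd A e Vp Vn χ (-(Q' • β + a))) (a2' : Ind χ Uk (-(Q' • β + a)))
    (a3 : Gd A e Vp Vn χ (P' • β - a)) (a3' : ∀ l, χ l β < 0 → χ l (P' • β - a) < 0) :
    ∃ η > 0, ∃ k₀ : ℕ, ∀ i m : ℕ, i + k₀ ≤ P * m → ∀ x w z v, QJ (A β) x w z v →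
      WF A Sj c (A (i • β) x) (A (i • β) w) → WF A Uk η x z →
      WF A Uk c (A (-((Q' * m) • β)) w) (A (-((Q' * m) • β)) v) ∧
      WF A {β} c (A ((P' * m) • β) z) (A ((P' * m) • β) v) := by
  classical
  have hc := hg.c_pos
  have hβ : Gd A e Vp Vn χ β := hSj β hβS
  have hnβ : Gd A e Vp Vn χ (-β) := hUk _ hβU
  obtain ⟨η₅, hη₅, h5⟩ := contr hA hSpl Uk hUk a2 a2' hc
  obtain ⟨η₄, hη₄, h4⟩ := contr_to hA hSpl (insert (-β) F') (by
    intro u hu
    rcases Finset.mem_insert.1 hu with rfl | hu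
    · exact hnβ
    · exact hF' u hu) Uk (fun v hv => ⟨hUk v hv, fun l hl => i2 v hv l
      (hl _ (Finset.mem_insert_self _ _)) fun u hu => hl u (Finset.mem_insert_of_mem hu)⟩) hη₅
  obtain ⟨η₃, hη₃, h3⟩ := contr hA hSpl {β} (by
    intro u hu
    rw [Finset.mem_singleton.1 hu]
    exact hβ) a3 (fun l hl => a3' l (hl β (Finset.mem_singleton_self _))) hc
  obtain ⟨ηu, hηu, hU⟩ := T.contU 0 η₄ hη₄
  obtain ⟨ηs, hηs, hS⟩ := T.contS 0 η₃ hη₃
  obtain ⟨η₂s, hη₂s, h2s⟩ := contr_set hA hSpl Sj hSj F' (fun v hv => ⟨hF' v hv, (i1 v hv).1⟩)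
    (lt_min hηs hc₁)
  obtain ⟨η₁s, hη₁s, h1s⟩ := contr hA hSpl Sj hSj a1 a1' hη₂s
  obtain ⟨k₀, hk₀⟩ := dec_pow (c := c) hη₁s
  obtain ⟨η₂d, hη₂d, h2d⟩ := contr_set hA hSpl Uk hUk F' (fun v hv => ⟨hF' v hv, (i1 v hv).2⟩)
    (lt_min hηu hc₁)
  obtain ⟨η, hη, h1d⟩ := contr hA hSpl Uk hUk a0 a0' hη₂d
  refine ⟨η, hη, k₀, fun i m him x w z v hQ hs hd => ?_⟩
  have k1 : WF A Sj η₁s (A ((P * m) • β) x) (A ((P * m) • β) w) := by
    have := wf_fw hA hβS hg hs (P * m - i)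
    rw [← hA, ← hA, ← add_smul, Nat.sub_add_cancel (by omega)] at this
    exact this.mono le_rfl (hk₀ _ (by omega))
  have k2 : WF A Sj η₂s (A (m • a) x) (A (m • a) w) := by
    have := h1s _ _ k1 m
    rwa [← hA, ← hA, show m • (a - P • β) + (P * m) • β = m • a by
      rw [smul_sub, smul_smul, mul_comm m P, sub_add_cancel]] at this
  have k3 := h2s _ _ k2
  have k4 := h1d _ _ hd m
  have k5 := h2d _ _ k4
  have hQa := qj_act hA hQ (m • a)
  have k6 : ∀ u ∈ AddSubmonoid.closure (F' : Set G),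
      SR (A β).symm η₄ (A u (A (m • a) w)) (A u (A (m • a) v)) := by
    intro u hu
    refine hU (A u (A (m • a) x)) _ (A u (A (m • a) z)) _ (by rw [hT]; exact qj_act hA hQa u) ?_ ?_
    · exact (wf_srn hA hβU (k5 u hu)).mono (min_le_left _ _)
    · exact (wf_sr hA hβS (k3 u hu)).mono (min_le_right _ _)
  have k7 : WF A (insert (-β) F') η₄ (A (m • a) w) (A (m • a) v) := by
    intro u hu
    rw [Finset.coe_insert] at hu
    obtain ⟨τ, hτ, k, rfl⟩ := mem_insert_closure' hu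
    rw [hA, hA, smul_neg]
    exact (hA.sr_symm β).1 (k6 τ hτ) k
  have k8 := h5 _ _ (h4 _ _ k7) m
  rw [← hA, ← hA, show m • -(Q' • β + a) + m • a = -((Q' * m) • β) by
    rw [smul_neg, smul_add, smul_smul, mul_comm m Q']
    abel] at k8
  refine ⟨k8, ?_⟩
  have k9 : SR (A β) η₃ (A (m • a) z) (A (m • a) v) := by
    have e1 := k3 0 (AddSubmonoid.zero_mem _)
    have e2 := k5 0 (AddSubmonoid.zero_mem _)
    rw [hA.zero, hA.zero] at e1 e2
    refine hS (A (m • a) x) (A (m • a) w) _ _ (by rw [hT]; exact hQa) ?_ ?_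
    · exact (wf_sr hA hβS e1).mono (min_le_left _ _)
    · exact (wf_srn hA hβU e2).mono (min_le_right _ _)
  have k10 := h3 _ _ (sr_wf hA k9) m
  rwa [← hA, ← hA, show m • (P' • β - a) + m • a = (P' * m) • β by
    rw [smul_sub, smul_smul, mul_comm m P', sub_add_cancel]] at k10

end sys

end Pool.Agent.NH49.TB
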