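import Pool.Agent.NH49.TB.T2

set_option autoImplicit false
set_option linter.unusedSectionVars false

open Filter Topology Set Metric

namespace Pool.Agent.NH49.TB

open Pool.Agent.H721R2 Pool.Agent.H789R2.AN Pool.Agent.H789R2.GP Pool.Agent.TH304.K289
open Pool.Agent.TH289.L Pool.Agent.TH289 Pool.Agent.TH289.K
open Pool.Agent.Y330.G Pool.Agent.Y330.H Pool.Agent.Y330.J Pool.Agent.NH49.TA

variable {X : Type*} [MetricSpace X] [CompactSpace X] {G : Type*} [AddCommGroup G]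
  {A : G → X ≃ₜ X} {κ ν : Type*}

/-- stable displacement of level `i` and type `j` -/
def SL (A : G → X ≃ₜ X) (S : ν → Finset G) (β : G) (c : ℝ) (j : ν) (i : ℕ) (x w : X) : Prop :=
  WF A (S j) c (A (i • β) x) (A (i • β) w)

/-- unstable displacement of level `i` and type `k` -/
def UL (A : G → X ≃ₜ X) (U : κ → Finset G) (β : G) (c : ℝ) (k : κ) (i : ℕ) (x z : X) : Prop :=
  WF A (U k) c (A (-(i • β)) x) (A (-(i • β)) z)

variable {S : ν → Finset G} {U : κ → Finset G} {β : G} {c : ℝ}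

theorem SL.mono (hA : Act A) (hβS : ∀ j, β ∈ S j) {j : ν} {i i' : ℕ} (h : i ≤ i') {x w : X}
    (hs : SL A S β c j i x w) : SL A S β c j i' x w := wf_fw' hA (hβS j) h hs

theorem UL.mono (hA : Act A) (hβU : ∀ k, -β ∈ U k) {k : κ} {i i' : ℕ} (h : i ≤ i') {x w : X}
    (hs : UL A U β c k i x w) : UL A U β c k i' x w := wf_bw' hA (hβU k) h hs

theorem SL.ws (hA : Act A) (hg : LP (A β) c) (hβS : ∀ j, β ∈ S j) {j : ν} {i : ℕ} {x w : X}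
    (hs : SL A S β c j i x w) : WS (A β) x w := by
  rw [← WS.iter i, hA.iter, hA.iter]
  exact WS.of_SR (hg.cS _ _ (wf_sr hA (hβS j) hs))

theorem UL.ws (hA : Act A) (hg : LP (A β) c) (hβU : ∀ k, -β ∈ U k) {k : κ} {i : ℕ} {x w : X}
    (hs : UL A U β c k i x w) : WS (A β).symm x w := by
  rw [← WS.iter i, hA.iter_symm, hA.iter_symm]
  exact WS.of_SR (hg.cU _ _ (wf_srn hA (hβU k) hs))

theorem chS_mono (hA : Act A) (hβS : ∀ j, β ∈ S j) {i i' : ℕ} (h : i ≤ i') {p : ℕ} {x w : X}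
    (hs : Ch (fun x w => ∃ j, SL A S β c j i x w) p x w) :
    Ch (fun x w => ∃ j, SL A S β c j i' x w) p x w :=
  Ch.mono (fun _ _ ⟨j, hj⟩ => ⟨j, hj.mono hA hβS h⟩) _ _ _ hs

/-- uniform constants -/
theorem unif_c [Finite κ] [Finite ν] {Pr : κ → ν → ℝ → Prop}
    (hm : ∀ k j C C', C ≤ C' → Pr k j C → Pr k j C') (h : ∀ k j, ∃ C ≥ 0, Pr k j C) :
    ∃ C ≥ 0, ∀ k j, Pr k j C := by
  choose f hf0 hf using h
  obtain ⟨B, hB⟩ := (Set.finite_range fun p : κ × ν => f p.1 p.2).bddAbove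
  refine ⟨max B 0, le_max_right _ _, fun k j => hm k j _ _ ?_ (hf k j)⟩
  exact (hB (mem_range_self (k, j))).trans (le_max_left _ _)

/-- first exchange property -/
def H1 (A : G → X ≃ₜ X) (S : ν → Finset G) (U : κ → Finset G) (β : G) (c : ℝ) : Prop :=
  ∀ k j, ∀ ε > 0, ∃ C ≥ (0 : ℝ), ∀ (i i₁ : ℕ) (x w z v : X), QJ (A β) x w z v →
    SL A S β c j i x w → UL A U β c k i₁ x z → ∀ n : ℕ, i₁ + ε * (i + i₁) + C ≤ n →
      UL A U β c k n w v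

/-- second exchange property -/
def H2 (A : G → X ≃ₜ X) (S : ν → Finset G) (U : κ → Finset G) (β : G) (c : ℝ) : Prop :=
  ∀ k j, ∃ Λ ≥ (0 : ℝ), ∃ C ≥ (0 : ℝ), ∀ (i i₁ : ℕ) (x w z v : X), QJ (A β) x w z v →
    SL A S β c j i x w → UL A U β c k i₁ x z → ∀ n : ℕ, Λ * (i + i₁) + C ≤ n →
      WF A {β} c (A (n • β) z) (A (n • β) v)

theorem H1.unif [Finite κ] [Finite ν] (h : H1 A S U β c) : ∀ ε > 0, ∃ C ≥ (0 : ℝ), ∀ k j,
    ∀ (i i₁ : ℕ) (x w z v : X), QJ (A β) x w z v → SL A S β c j i x w → UL A U β c k i₁ x z →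
      ∀ n : ℕ, i₁ + ε * (i + i₁) + C ≤ n → UL A U β c k n w v := by
  intro ε hε
  refine unif_c (Pr := fun k j C => ∀ (i i₁ : ℕ) (x w z v : X), QJ (A β) x w z v →
    SL A S β c j i x w → UL A U β c k i₁ x z →
      ∀ n : ℕ, i₁ + ε * (i + i₁) + C ≤ n → UL A U β c k n w v) ?_ (fun k j => h k j ε hε)
  intro k j C C' hC h1 i i₁ x w z v hQ hs hd n hn
  exact h1 i i₁ x w z v hQ hs hd n (by linarith)

theorem H2.unif [Finite κ] [Finite ν] (h : H2 A S U β c) : ∃ Λ ≥ (0 : ℝ), ∃ C ≥ (0 : ℝ),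
    ∀ k j, ∀ (i i₁ : ℕ) (x w z v : X), QJ (A β) x w z v →
    SL A S β c j i x w → UL A U β c k i₁ x z → ∀ n : ℕ, Λ * (i + i₁) + C ≤ n →
      WF A {β} c (A (n • β) z) (A (n • β) v) := by
  obtain ⟨Λ, hΛ, h1⟩ := unif_c (Pr := fun k j Λ => ∃ C ≥ (0 : ℝ), ∀ (i i₁ : ℕ) (x w z v : X),
    QJ (A β) x w z v → SL A S β c j i x w → UL A U β c k i₁ x z → ∀ n : ℕ, Λ * (i + i₁) + C ≤ n →
      WF A {β} c (A (n • β) z) (A (n • β) v)) (by
    rintro k j Λ Λ' hΛ ⟨C, hC, h1⟩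
    refine ⟨C, hC, fun i i₁ x w z v hQ hs hd n hn => h1 i i₁ x w z v hQ hs hd n ?_⟩
    have h2 : (0 : ℝ) ≤ (i : ℝ) + i₁ := by positivity
    nlinarith) h
  obtain ⟨C, hC, h2⟩ := unif_c (Pr := fun k j C => ∀ (i i₁ : ℕ) (x w z v : X),
    QJ (A β) x w z v → SL A S β c j i x w → UL A U β c k i₁ x z → ∀ n : ℕ, Λ * (i + i₁) + C ≤ n →
      WF A {β} c (A (n • β) z) (A (n • β) v)) (by
    intro k j C C' hC h1 i i₁ x w z v hQ hs hd n hn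
    exact h1 i i₁ x w z v hQ hs hd n (by linarith)) h1
  exact ⟨Λ, hΛ, C, hC, h2⟩

section pass

variable [Finite κ] [Finite ν] {c₁ : ℝ}

theorem corner_eq (T : QS (A β) c₁) (hT : T.Q = QJ (A β)) {x z v : X} (h : QJ (A β) x x z v) :
    z = v := by
  have h1 := h.flipU
  rw [← hT] at h1
  have h2 : T.Q x x z v := by
    rw [hT]
    exact h
  exact T.unique x x z z v (qs_degU T (by
    have := T.wU _ _ _ _ h2
    obtain ⟨y, hy⟩ := T.ex z z z (WS.refl _ _) (WS.refl _ _)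
    have h3 := T.wU _ _ _ _ (T.flipS _ _ _ _ h2)
    exact h3)) h2

/-- an unstable displacement passes a chain of stable ones -/
theorem pass1 (hA : Act A) (hg : LP (A β) c) (T : QS (A β) c₁) (hT : T.Q = QJ (A β))
    (hβS : ∀ j, β ∈ S j) (hβU : ∀ k, -β ∈ U k) (h1 : H1 A S U β c) : ∀ p : ℕ, ∀ ε > 0,
    ∃ C ≥ (0 : ℝ), ∀ (k : κ) (I i₁ : ℕ) (x w z v : X),
      Ch (fun x w => ∃ j, SL A S β c j I x w) p x w → UL A U β c k i₁ x z → QJ (A β) x w z v →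
      ∀ n : ℕ, i₁ + ε * (I + i₁) + C ≤ n → UL A U β c k n w v := by
  intro p
  induction p with
  | zero =>
    intro ε hε
    refine ⟨0, le_rfl, fun k I i₁ x w z v hs hd hQ n hn => ?_⟩
    have hxw : x = w := hs
    subst hxw
    have e := corner_eq T hT hQ
    subst e
    refine hd.mono hA hβU ?_
    have : (0 : ℝ) ≤ ε * (I + i₁) := by positivity
    exact_mod_cast (show (i₁ : ℝ) ≤ n by linarith)
  | succ p ih =>
    intro ε hε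
    set δ : ℝ := min (ε / 3) 1 with hδ
    have hδ0 : 0 < δ := by positivity
    have hδ1 : δ ≤ 1 := min_le_right _ _
    have hδε : 3 * δ ≤ ε := by
      have := min_le_left (ε / 3) 1
      linarith
    obtain ⟨C₁, hC₁, k1⟩ := h1.unif δ hδ0
    obtain ⟨C₂, hC₂, k2⟩ := ih δ hδ0
    refine ⟨2 * (C₁ + 1) + C₂, by positivity, fun k I i₁ x w z v hs hd hQ n hn => ?_⟩
    obtain ⟨x₁, ⟨j, hj⟩, hs'⟩ := hs
    obtain ⟨z₁, hz₁⟩ := T.ex x x₁ z (hj.ws hA hg hβS) (hd.ws hA hg hβU)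
    have hQ' : T.Q x w z v := by
      rw [hT]
      exact hQ
    have h3 : T.Q x₁ w z₁ v := T.compS _ _ _ _ _ _ (T.flipS _ _ _ _ hz₁) hQ'
    rw [hT] at hz₁ h3
    set n₁ : ℕ := ⌈(i₁ : ℝ) + δ * (I + i₁) + C₁⌉₊ with hn₁
    have h4 : (i₁ : ℝ) + δ * (I + i₁) + C₁ ≤ n₁ := Nat.le_ceil _
    have h5 : (n₁ : ℝ) < i₁ + δ * (I + i₁) + C₁ + 1 := Nat.ceil_lt_add_one (by positivity)
    refine k2 k I n₁ x₁ w z₁ v hs' (k1 k j I i₁ x x₁ z z₁ hz₁ hj hd n₁ h4) h3 n ?_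
    refine le_trans ?_ hn
    have hI : (0 : ℝ) ≤ I := Nat.cast_nonneg _
    have hi : (0 : ℝ) ≤ i₁ := Nat.cast_nonneg _
    have e1 : (n₁ : ℝ) + δ * (I + n₁) + C₂ ≤
        (1 + δ) * (i₁ + δ * (I + i₁) + C₁ + 1) + δ * I + C₂ := by nlinarith
    have e2 : (1 + δ) * (i₁ + δ * (I + i₁) + C₁ + 1) + δ * I + C₂ ≤
        i₁ + 3 * δ * (I + i₁) + 2 * (C₁ + 1) + C₂ := by
      have f1 : δ * δ * (I + i₁) ≤ δ * (I + i₁) := by
        have : δ * δ ≤ δ := by nlinarith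
        exact mul_le_mul_of_nonneg_right this (by positivity)
      have f2 : δ * (C₁ + 1) ≤ C₁ + 1 := by nlinarith
      nlinarith
    have e3 : 3 * δ * ((I : ℝ) + i₁) ≤ ε * (I + i₁) :=
      mul_le_mul_of_nonneg_right hδε (by positivity)
    linarith

/-- the chain of stable displacements on the other side -/
theorem pass2 (hA : Act A) (hg : LP (A β) c) (T : QS (A β) c₁) (hT : T.Q = QJ (A β))
    (hβS : ∀ j, β ∈ S j) (hβU : ∀ k, -β ∈ U k) (h1 : H1 A S U β c) (h2 : H2 A S U β c) {r i₂ : ℕ}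
    (hsd : ∀ (n : ℕ) (z v : X), WF A {β} c (A (n • β) z) (A (n • β) v) →
      Ch (fun x w => ∃ j, SL A S β c j (n + i₂) x w) r z v) : ∀ p : ℕ,
    ∃ Λ ≥ (0 : ℝ), ∃ C ≥ (0 : ℝ), ∀ (k : κ) (I i₁ : ℕ) (x w z v : X),
      Ch (fun x w => ∃ j, SL A S β c j I x w) p x w → UL A U β c k i₁ x z → QJ (A β) x w z v →
      ∀ n : ℕ, Λ * (I + i₁) + C ≤ n → Ch (fun x w => ∃ j, SL A S β c j n x w) (p * r) z v := by
  intro p
  induction p with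
  | zero =>
    refine ⟨0, le_rfl, 0, le_rfl, fun k I i₁ x w z v hs hd hQ n hn => ?_⟩
    have hxw : x = w := hs
    subst hxw
    have e := corner_eq T hT hQ
    subst e
    rw [Nat.zero_mul]
    rfl
  | succ p ih =>
    obtain ⟨C₁, hC₁, k1⟩ := h1.unif 1 one_pos
    obtain ⟨Λ₂, hΛ₂, C₂, hC₂, k2⟩ := h2.unif
    obtain ⟨Λ₃, hΛ₃, C₃, hC₃, k3⟩ := ih
    refine ⟨Λ₂ + 3 * Λ₃, by positivity, C₂ + 1 + i₂ + Λ₃ * (C₁ + 1) + C₃, by positivity,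
      fun k I i₁ x w z v hs hd hQ n hn => ?_⟩
    obtain ⟨x₁, ⟨j, hj⟩, hs'⟩ := hs
    obtain ⟨z₁, hz₁⟩ := T.ex x x₁ z (hj.ws hA hg hβS) (hd.ws hA hg hβU)
    have hQ' : T.Q x w z v := by
      rw [hT]
      exact hQ
    have h3 : T.Q x₁ w z₁ v := T.compS _ _ _ _ _ _ (T.flipS _ _ _ _ hz₁) hQ'
    rw [hT] at hz₁ h3
    have hI : (0 : ℝ) ≤ I := Nat.cast_nonneg _
    have hi : (0 : ℝ) ≤ i₁ := Nat.cast_nonneg _
    set n₁ : ℕ := ⌈(i₁ : ℝ) + 1 * (I + i₁) + C₁⌉₊ with hn₁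
    have h4 : (i₁ : ℝ) + 1 * (I + i₁) + C₁ ≤ n₁ := Nat.le_ceil _
    have h5 : (n₁ : ℝ) < i₁ + 1 * (I + i₁) + C₁ + 1 := Nat.ceil_lt_add_one (by positivity)
    set n₂ : ℕ := ⌈Λ₂ * ((I : ℝ) + i₁) + C₂⌉₊ with hn₂
    have h6 : Λ₂ * ((I : ℝ) + i₁) + C₂ ≤ n₂ := Nat.le_ceil _
    have h7 : (n₂ : ℝ) < Λ₂ * (I + i₁) + C₂ + 1 := Nat.ceil_lt_add_one (by positivity)
    have h8 := hsd n₂ _ _ (k2 k j I i₁ x x₁ z z₁ hz₁ hj hd n₂ h6)
    have p1 : (0 : ℝ) ≤ Λ₃ * (I + i₁) := by positivity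
    have p2 : (0 : ℝ) ≤ Λ₂ * (I + i₁) := by positivity
    have p3 : (0 : ℝ) ≤ Λ₃ * (C₁ + 1) := by positivity
    have hle : n₂ + i₂ ≤ n := by
      have : (n₂ : ℝ) + i₂ ≤ n := by nlinarith
      exact_mod_cast this
    have h9 := k3 k I n₁ x₁ w z₁ v hs' (k1 k j I i₁ x x₁ z z₁ hz₁ hj hd n₁ h4) h3 n (by
      refine le_trans ?_ hn
      have e1 : Λ₃ * ((I : ℝ) + n₁) ≤ Λ₃ * (3 * (I + i₁) + C₁ + 1) :=
        mul_le_mul_of_nonneg_left (by linarith) hΛ₃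
      nlinarith)
    rw [show (p + 1) * r = r + p * r by ring]
    exact Ch.append _ _ _ _ _ (chS_mono hA hβS hle h8) h9

/-- a chain of unstable displacements passes a chain of stable ones -/
theorem passD (hA : Act A) (hg : LP (A β) c) (T : QS (A β) c₁) (hT : T.Q = QJ (A β))
    (hβS : ∀ j, β ∈ S j) (hβU : ∀ k, -β ∈ U k) (h1 : H1 A S U β c) (h2 : H2 A S U β c) {r i₂ : ℕ}
    (hsd : ∀ (n : ℕ) (z v : X), WF A {β} c (A (n • β) z) (A (n • β) v) →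
      Ch (fun x w => ∃ j, SL A S β c j (n + i₂) x w) r z v) (i₀ : ℕ) {ρ : ℝ} (hρ : 0 < ρ) :
    ∀ (q p : ℕ), ∀ ε > 0, ∃ C ≥ (0 : ℝ), ∀ (I : ℕ) (x w y v : X),
      Ch (fun x z => ∃ k, UL A U β c k i₀ x z) q x y →
      Ch (fun x w => ∃ j, SL A S β c j I x w) p x w → QJ (A β) x w y v →
      ∀ n : ℕ, ε * I + C ≤ n → SR (A β).symm (q * ρ) (A (-(n • β)) w) (A (-(n • β)) v) := by
  intro q
  obtain ⟨i₃, hi₃⟩ := dec_pow (c := c) hρ
  induction q with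
  | zero =>
    intro p ε hε
    refine ⟨0, le_rfl, fun I x w y v hd hs hQ n hn => ?_⟩
    have hxy : x = y := hd
    subst hxy
    have e : w = v := by
      refine T.unique x w x w v (qs_degS T ?_) (by rw [hT]; exact hQ)
      exact hQ.choose
    subst e
    intro k
    rw [dist_self]
    simp
  | succ q ih =>
    intro p ε hε
    obtain ⟨Λ₂, hΛ₂, C₂, hC₂, k2⟩ := pass2 hA hg T hT hβS hβU h1 h2 hsd p
    set ε₃ : ℝ := ε / (Λ₂ + 1) with hε₃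
    have hε₃0 : 0 < ε₃ := by positivity
    have hεΛ : ε₃ * (Λ₂ + 1) = ε := by
      rw [hε₃]
      field_simp
    obtain ⟨C₃, hC₃, k3⟩ := ih (p * r) ε₃ hε₃0
    obtain ⟨C₁, hC₁, k1⟩ := pass1 hA hg T hT hβS hβU h1 p ε hε
    refine ⟨i₀ + ε * i₀ + C₁ + 1 + i₃ + ε₃ * (Λ₂ * i₀ + C₂ + 1) + C₃, by positivity,
      fun I x w y v hd hs hQ n hn => ?_⟩
    obtain ⟨x₁, ⟨k, hk⟩, hd'⟩ := hd
    obtain ⟨w₁, hw₁⟩ := T.ex x w x₁ (by exact hQ.choose) (hk.ws hA hg hβU)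
    have hQ' : T.Q x w y v := by
      rw [hT]
      exact hQ
    have h3 : T.Q x₁ w₁ y v := T.compU _ _ _ _ _ _ (T.flipU _ _ _ _ hw₁) hQ'
    rw [hT] at hw₁ h3
    have hI : (0 : ℝ) ≤ I := Nat.cast_nonneg _
    have hi : (0 : ℝ) ≤ i₀ := Nat.cast_nonneg _
    have hi3 : (0 : ℝ) ≤ i₃ := Nat.cast_nonneg _
    set n₂ : ℕ := ⌈Λ₂ * ((I : ℝ) + i₀) + C₂⌉₊ with hn₂
    have h6 : Λ₂ * ((I : ℝ) + i₀) + C₂ ≤ n₂ := Nat.le_ceil _
    have h7 : (n₂ : ℝ) < Λ₂ * (I + i₀) + C₂ + 1 := Nat.ceil_lt_add_one (by positivity)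
    have p1 : (0 : ℝ) ≤ ε₃ * (Λ₂ * i₀ + C₂ + 1) := by positivity
    have p2 : (0 : ℝ) ≤ ε * i₀ := by positivity
    have p3 : (0 : ℝ) ≤ ε₃ * I := by positivity
    have p4 : (0 : ℝ) ≤ ε * I := by positivity
    have h8 := k3 n₂ x₁ w₁ y v hd' (k2 k I i₀ x w x₁ w₁ hs hk hw₁ n₂ h6) h3 n (by
      refine le_trans ?_ hn
      have e1 : ε₃ * (n₂ : ℝ) ≤ ε₃ * (Λ₂ * (I + i₀) + C₂ + 1) :=
        mul_le_mul_of_nonneg_left h7.le hε₃0.le
      have e2 : ε₃ * (Λ₂ * ((I : ℝ) + i₀) + C₂ + 1) =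
          ε₃ * Λ₂ * I + ε₃ * (Λ₂ * i₀ + C₂ + 1) := by ring
      have e3 : ε₃ * Λ₂ * (I : ℝ) ≤ ε * I := by
        rw [← hεΛ]
        nlinarith
      linarith)
    have hn3 : i₃ ≤ n := by
      have : (i₃ : ℝ) ≤ n := by linarith
      exact_mod_cast this
    have h9 := k1 k I i₀ x w x₁ w₁ hs hk hw₁ (n - i₃) (by
      have e1 : ((n - i₃ : ℕ) : ℝ) = n - i₃ := by
        rw [Nat.cast_sub hn3]
      rw [e1]
      have e2 : ε * ((I : ℝ) + i₀) = ε * I + ε * i₀ := by ring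
      linarith)
    have h10 : SR (A β).symm ρ (A (-(n • β)) w) (A (-(n • β)) w₁) := by
      have e1 := wf_bw hA (hβU k) hg h9 i₃
      rw [← hA, ← hA, ← neg_add, ← add_smul, Nat.add_sub_cancel' hn3] at e1
      exact (wf_srn hA (hβU k) e1).mono (hi₃ _ le_rfl)
    refine (h10.tr h8).mono (le_of_eq ?_)
    push_cast
    ring

/-- slow distortion -/
theorem slow (hA : Act A) (hg : LP (A β) c) (T : QS (A β) c₁) (hT : T.Q = QJ (A β))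
    (hβS : ∀ j, β ∈ S j) (hβU : ∀ k, -β ∈ U k) (h1 : H1 A S U β c) (h2 : H2 A S U β c)
    {r i₂ : ℕ}
    (hsd : ∀ (n : ℕ) (z v : X), WF A {β} c (A (n • β) z) (A (n • β) v) →
      Ch (fun x w => ∃ j, SL A S β c j (n + i₂) x w) r z v) {q i₀ : ℕ}
    (hud : ∀ (x y : X), WF A {-β} c x y → Ch (fun x z => ∃ k, UL A U β c k i₀ x z) q x y)
    {ρ : ℝ} (hρ : 0 < ρ) :
    ∀ N' ≥ 1, ∃ C : ℕ, ∀ (j : ℕ) (x x' y y' : X), QJ (A β) x x' y y' →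
      SR (A β) c (A (j • β) x) (A (j • β) x') → SR (A β).symm c x y →
      SR (A β).symm ρ (A (-((j / N' + C) • β)) x') (A (-((j / N' + C) • β)) y') := by
  intro N' hN'
  have hN : (1 : ℝ) ≤ N' := by exact_mod_cast hN'
  obtain ⟨C, hC, h3⟩ := passD hA hg T hT hβS hβU h1 h2 hsd i₀ (ρ := ρ / (q + 1))
    (by positivity) q r (1 / N') (one_div_pos.2 (by linarith))
  refine ⟨⌈C⌉₊ + i₂ + 1, fun j x x' y y' hQ hj hxy => ?_⟩
  have h4 := h3 (j + i₂) x x' y y' (hud x y (srn_wf hA hxy)) (hsd j _ _ (sr_wf hA hj)) hQ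
    (j / N' + (⌈C⌉₊ + i₂ + 1)) (by
      have e1 : C ≤ ⌈C⌉₊ := Nat.le_ceil C
      have e2 : (j : ℝ) ≤ N' * ((j / N' : ℕ) + 1) := by
        have : j < N' * (j / N' + 1) := Nat.lt_mul_div_succ j (by omega)
        exact_mod_cast this.le
      have e3 : (1 / (N' : ℝ)) * ((j + i₂ : ℕ) : ℝ) ≤ (j / N' : ℕ) + 1 + i₂ := by
        rw [one_div, inv_mul_le_iff₀ (by linarith)]
        push_cast
        have : (i₂ : ℝ) ≤ N' * i₂ := by nlinarith [(Nat.cast_nonneg i₂ : (0 : ℝ) ≤ i₂)]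
        push_cast at e2
        nlinarith
      push_cast at e3 ⊢
      linarith)
  refine h4.mono ?_
  rw [mul_div_assoc', div_le_iff₀ (by positivity)]
  nlinarith

end pass

end Pool.Agent.NH49.TB
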