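import Pool.Agent.NH49.TB.T3
import Pool.Agent.NH49.TA.M5

set_option autoImplicit false
set_option linter.unusedSectionVars false

open Filter Topology Set Metric

namespace Pool.Agent.NH49.TB

open Pool.Agent.H721R2 Pool.Agent.H789R2.AN Pool.Agent.H789R2.GP Pool.Agent.TH304.K289
open Pool.Agent.TH289.L Pool.Agent.TH289 Pool.Agent.TH289.K
open Pool.Agent.Y330.G Pool.Agent.Y330.H Pool.Agent.Y330.J Pool.Agent.NH49.TA

section comb

variable {G J : Type*} [AddCommGroup G] [Finite J]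

/-- regular elements with given signs -/
theorem reg_of (χ : J → G →+ ℝ) (a e : G) (he : ∀ l, χ l e ≠ 0) :
    ∃ a', (∀ l, χ l a' ≠ 0) ∧ ∀ l, χ l a ≠ 0 → 0 < χ l a * χ l a' := by
  have h1 : ∀ l, ∀ᶠ M : ℕ in atTop, χ l (M • a + e) ≠ 0 ∧
      (χ l a ≠ 0 → 0 < χ l a * χ l (M • a + e)) := by
    intro l
    have e1 : ∀ M : ℕ, χ l (M • a + e) = M * χ l a + χ l e := fun M => by
      rw [map_add, map_nsmul, nsmul_eq_mul]
    by_cases h0 : χ l a = 0
    · refine Eventually.of_forall fun M => ⟨?_, fun h => absurd h0 h⟩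
      rw [e1, h0, mul_zero, zero_add]
      exact he l
    · have h2 : 0 < χ l a ^ 2 := by positivity
      have hlim : Tendsto (fun M : ℕ => (M : ℝ) * χ l a ^ 2) atTop atTop :=
        tendsto_natCast_atTop_atTop.atTop_mul_const h2
      filter_upwards [hlim.eventually_gt_atTop (-(χ l a * χ l e))] with M hM
      have h3 : 0 < χ l a * χ l (M • a + e) := by
        rw [e1]
        nlinarith
      exact ⟨fun h => by rw [h, mul_zero] at h3; exact lt_irrefl _ h3, fun _ => h3⟩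
  obtain ⟨M, hM⟩ := (eventually_all.mpr h1).exists
  exact ⟨M • a + e, fun l => (hM l).1, fun l => (hM l).2⟩

theorem sign_of {f g M K : ℝ} (hM : K < M * |f|) (h : |g - M * f| ≤ K) : 0 < f * g := by
  have hf : f ≠ 0 := by
    intro h0
    rw [h0, abs_zero, mul_zero] at hM
    rw [h0, mul_zero, sub_zero] at h
    linarith [abs_nonneg g]
  rw [abs_le] at h
  rcases lt_or_gt_of_ne hf with h1 | h1
  · rw [abs_of_neg h1] at hM
    apply mul_pos_of_neg_of_neg h1
    linarith [h.2]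
  · rw [abs_of_pos h1] at hM
    apply mul_pos h1
    linarith [h.1]

/-- the nearly singular elements -/
theorem near_wall2 (χ : J → G →+ ℝ) {b c : G} (hb : ∀ l, χ l b ≠ 0) {k j : J} (hbk : 0 < χ k b)
    (hbj : χ j b < 0) (hck : χ k c < 0) (hcj : χ j c < 0) {D Λ : ℕ} (hD : -χ k c / χ k b < D)
    (hΛ : ∀ l, 2 + (2 * χ k b / (-χ k c) + 1) * |χ l c| / |χ l b| < Λ) {N : ℕ} (hN : 1 ≤ N) :
    ∃ M ≥ 1, ∃ a : G, (∀ l, χ l a ≠ 0) ∧ (∀ l, χ l (a - (N * M) • b) ≠ 0) ∧
      (∀ l, χ l ((D * M) • b + a) ≠ 0) ∧ (∀ l, χ l ((Λ * N * M) • b - a) ≠ 0) ∧ χ k a < 0 ∧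
      χ j (a - (N * M) • b) < 0 ∧ 0 < χ k ((D * M) • b + a) ∧
      ∀ l, χ l b < 0 → χ l ((Λ * N * M) • b - a) < 0 := by
  have hy : 0 < -χ k c := by linarith
  have hN1 : (1 : ℝ) ≤ N := by exact_mod_cast hN
  set γ : ℝ := (N + 1) * χ k b / (-χ k c) + 1 with hγ
  have hγ0 : 0 < γ := by positivity
  set w : J → ℝ := fun l => (N + 1) * χ l b + γ * χ l c with hw
  have hwk : w k = χ k c := by
    show (N + 1) * χ k b + ((N + 1) * χ k b / (-χ k c) + 1) * χ k c = χ k c
    have : (N + 1) * χ k b / (-χ k c) * χ k c = -((N + 1) * χ k b) := by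
      rw [div_mul_eq_mul_div, div_eq_iff hy.ne']
      ring
    linarith
  have hD' : -χ k c < D * χ k b := by rwa [div_lt_iff₀ hbk] at hD
  -- perturbation
  let W : J × Fin 4 → ℝ := fun p => ![w p.1, w p.1 - N * χ p.1 b, D * χ p.1 b + w p.1,
    Λ * N * χ p.1 b - w p.1] p.2
  let p : J × Fin 4 → ℝ := fun p => ![χ p.1 b, χ p.1 b, χ p.1 b, -χ p.1 b] p.2
  obtain ⟨s, hs, hsW⟩ := perturb W p (by
    rintro ⟨l, i⟩
    have := hb l
    fin_cases i
    · exact this
    · exact this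
    · exact this
    · exact neg_ne_zero.2 this)
  set α : ℝ := N + 1 + s with hα
  set v : J → ℝ := fun l => α * χ l b + γ * χ l c with hv
  have hv0 : ∀ l, W (l, 0) + s * p (l, 0) = v l := fun l => by
    show (N + 1) * χ l b + γ * χ l c + s * χ l b = (N + 1 + s) * χ l b + γ * χ l c
    ring
  have hv1 : ∀ l, W (l, 1) + s * p (l, 1) = v l - N * χ l b := fun l => by
    show (N + 1) * χ l b + γ * χ l c - N * χ l b + s * χ l b =
      (N + 1 + s) * χ l b + γ * χ l c - N * χ l b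
    ring
  have hv2 : ∀ l, W (l, 2) + s * p (l, 2) = D * χ l b + v l := fun l => by
    show D * χ l b + ((N + 1) * χ l b + γ * χ l c) + s * χ l b =
      D * χ l b + ((N + 1 + s) * χ l b + γ * χ l c)
    ring
  have hv3 : ∀ l, W (l, 3) + s * p (l, 3) = Λ * N * χ l b - v l := fun l => by
    show Λ * N * χ l b - ((N + 1) * χ l b + γ * χ l c) + s * (-χ l b) =
      Λ * N * χ l b - ((N + 1 + s) * χ l b + γ * χ l c)
    ring
  -- integral approximation
  have key : ∀ l, ∀ᶠ M : ℕ in atTop,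
      0 < v l * χ l (⌊(M : ℝ) * α⌋ • b + ⌊(M : ℝ) * γ⌋ • c) ∧
      0 < (v l - N * χ l b) * χ l (⌊(M : ℝ) * α⌋ • b + ⌊(M : ℝ) * γ⌋ • c - (N * M) • b) ∧
      0 < (D * χ l b + v l) * χ l ((D * M) • b + (⌊(M : ℝ) * α⌋ • b + ⌊(M : ℝ) * γ⌋ • c)) ∧
      0 < (Λ * N * χ l b - v l) *
        χ l ((Λ * N * M) • b - (⌊(M : ℝ) * α⌋ • b + ⌊(M : ℝ) * γ⌋ • c)) := by
    intro l
    set K : ℝ := |χ l b| + |χ l c| with hK
    have hlim : ∀ f : ℝ, f ≠ 0 → ∀ᶠ M : ℕ in atTop, K < (M : ℝ) * |f| := fun f hf =>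
      (tendsto_natCast_atTop_atTop.atTop_mul_const (abs_pos.2 hf)).eventually_gt_atTop K
    have n0 : v l ≠ 0 := by rw [← hv0]; exact (hsW (l, 0)).1
    have n1 : v l - N * χ l b ≠ 0 := by rw [← hv1]; exact (hsW (l, 1)).1
    have n2 : D * χ l b + v l ≠ 0 := by rw [← hv2]; exact (hsW (l, 2)).1
    have n3 : Λ * N * χ l b - v l ≠ 0 := by rw [← hv3]; exact (hsW (l, 3)).1
    filter_upwards [hlim _ n0, hlim _ n1, hlim _ n2, hlim _ n3] with M k0 k1 k2 k3
    have hfl : ∀ (t y : ℝ), |(⌊t⌋ : ℝ) * y - t * y| ≤ |y| := by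
      intro t y
      rw [← sub_mul, abs_mul]
      have h2 : |(⌊t⌋ : ℝ) - t| ≤ 1 := by
        rw [abs_le]
        have := Int.floor_le t
        have := Int.lt_floor_add_one t
        constructor <;> linarith
      calc |(⌊t⌋ : ℝ) - t| * |y| ≤ 1 * |y| := mul_le_mul_of_nonneg_right h2 (abs_nonneg _)
        _ = |y| := one_mul _
    set g : ℝ := χ l (⌊(M : ℝ) * α⌋ • b + ⌊(M : ℝ) * γ⌋ • c) with hg
    have e1 : g = ⌊(M : ℝ) * α⌋ * χ l b + ⌊(M : ℝ) * γ⌋ * χ l c := by
      simp [hg, map_add, map_zsmul]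
    have herr : |g - M * v l| ≤ K := by
      rw [e1]
      have h3 := hfl (M * α) (χ l b)
      have h4 := hfl (M * γ) (χ l c)
      have e2 : (⌊(M : ℝ) * α⌋ : ℝ) * χ l b + ⌊(M : ℝ) * γ⌋ * χ l c - M * v l =
          (⌊(M : ℝ) * α⌋ * χ l b - M * α * χ l b) +
            (⌊(M : ℝ) * γ⌋ * χ l c - M * γ * χ l c) := by
        rw [hv]
        ring
      rw [e2]
      exact (abs_add_le _ _).trans (add_le_add h3 h4)
    refine ⟨sign_of k0 herr, sign_of k1 ?_, sign_of k2 ?_, sign_of k3 ?_⟩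
    · rw [map_sub, ← hg, map_nsmul, nsmul_eq_mul]
      push_cast
      have : g - N * M * χ l b - M * (v l - N * χ l b) = g - M * v l := by ring
      rw [this]
      exact herr
    · rw [map_add, ← hg, map_nsmul, nsmul_eq_mul]
      push_cast
      have : D * M * χ l b + g - M * (D * χ l b + v l) = g - M * v l := by ring
      rw [this]
      exact herr
    · rw [map_sub, ← hg, map_nsmul, nsmul_eq_mul]
      push_cast
      have : Λ * N * M * χ l b - g - M * (Λ * N * χ l b - v l) = -(g - M * v l) := by ring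
      rw [this, abs_neg]
      exact herr
  obtain ⟨M, hM, hM1⟩ := ((eventually_all.mpr key).and (eventually_ge_atTop 1)).exists
  have hne : ∀ {x y : ℝ}, 0 < x * y → y ≠ 0 := fun h h0 => by
    rw [h0, mul_zero] at h
    exact lt_irrefl _ h
  refine ⟨M, hM1, _, fun l => hne (hM l).1, fun l => hne (hM l).2.1, fun l => hne (hM l).2.2.1,
    fun l => hne (hM l).2.2.2, ?_, ?_, ?_, fun l hl => ?_⟩
  · have h1 := (hsW (k, 0)).2.1 (show w k ≠ 0 by rw [hwk]; exact hck.ne)
    rw [hv0] at h1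
    have h2 : v k < 0 := same_neg h1 (show w k < 0 by rw [hwk]; exact hck)
    exact same_neg (hM k).1 h2
  · have h0 : W (j, 1) < 0 := by
      show (N + 1) * χ j b + γ * χ j c - N * χ j b < 0
      have : γ * χ j c < 0 := mul_neg_of_pos_of_neg hγ0 hcj
      linarith
    have h1 := (hsW (j, 1)).2.1 h0.ne
    rw [hv1] at h1
    exact same_neg (hM j).2.1 (same_neg h1 h0)
  · have h0 : 0 < W (k, 2) := by
      show 0 < D * χ k b + w k
      rw [hwk]
      linarith
    have h1 := (hsW (k, 2)).2.1 h0.ne'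
    rw [hv2] at h1
    exact same_pos (hM k).2.2.1 (same_pos h1 h0)
  · have h0 : W (l, 3) < 0 := by
      show Λ * N * χ l b - ((N + 1) * χ l b + γ * χ l c) < 0
      have hbl : 0 < |χ l b| := abs_pos.2 (hb l)
      have h4 := hΛ l
      have h5 : (2 * χ k b / (-χ k c) + 1) * |χ l c| < (Λ - 2) * |χ l b| := by
        have h6 : (2 * χ k b / (-χ k c) + 1) * |χ l c| / |χ l b| < Λ - 2 := by linarith
        rwa [div_lt_iff₀ hbl] at h6
      have hγN : γ ≤ N * (2 * χ k b / (-χ k c) + 1) := by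
        have h1 : (N + 1) * χ k b / (-χ k c) ≤ N * (2 * χ k b / (-χ k c)) := by
          rw [mul_div_assoc']
          apply div_le_div_of_nonneg_right _ hy.le
          nlinarith
        rw [hγ]
        nlinarith
      have h7 : γ * |χ l c| < (Λ - 2) * N * |χ l b| := by
        calc γ * |χ l c| ≤ N * (2 * χ k b / (-χ k c) + 1) * |χ l c| :=
              mul_le_mul_of_nonneg_right hγN (abs_nonneg _)
          _ = N * ((2 * χ k b / (-χ k c) + 1) * |χ l c|) := by ring
          _ < N * ((Λ - 2) * |χ l b|) := by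
              apply mul_lt_mul_of_pos_left h5
              linarith
          _ = _ := by ring
      have h8 : χ l b = -|χ l b| := by rw [abs_of_neg hl, neg_neg]
      have h9 : -(γ * χ l c) ≤ γ * |χ l c| := by
        rw [← mul_neg]
        exact mul_le_mul_of_nonneg_left (neg_le_abs _) hγ0.le
      have h10 : (Λ - 2) * N * |χ l b| ≤ (Λ * N - N - 1) * |χ l b| := by
        apply mul_le_mul_of_nonneg_right _ hbl.le
        nlinarith
      have h11 : Λ * N * χ l b - ((N + 1) * χ l b + γ * χ l c) =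
          -((Λ * N - N - 1) * |χ l b|) + -(γ * χ l c) := by
        rw [h8]
        simp only [abs_neg, abs_abs]
        ring
      rw [h11]
      linarith
    have h1 := (hsW (l, 3)).2.1 h0.ne
    rw [hv3] at h1
    exact same_neg (hM l).2.2.2 (same_neg h1 h0)

end comb

end Pool.Agent.NH49.TB
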