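import Pool.Agent.NH49.TB.T4

set_option autoImplicit false
set_option linter.unusedSectionVars false

open Filter Topology Set Metric

namespace Pool.Agent.NH49.TB

open Pool.Agent.H721R2 Pool.Agent.H789R2.AN Pool.Agent.H789R2.GP Pool.Agent.TH304.K289
open Pool.Agent.TH289.L Pool.Agent.TH289 Pool.Agent.TH289.K
open Pool.Agent.Y330.G Pool.Agent.Y330.H Pool.Agent.Y330.J Pool.Agent.NH49.TA

variable {X : Type*} [MetricSpace X] [CompactSpace X] {G : Type*} [AddCommGroup G]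
  {A : G → X ≃ₜ X} {κ ν : Type*} {S : ν → Finset G} {U : κ → Finset G} {β : G} {c : ℝ}

/-- the exchange property in terms of levels -/
theorem swap_levels (hA : Act A) (hg : LP (A β) c) (hβS : ∀ j, β ∈ S j) (hβU : ∀ k, -β ∈ U k)
    {k : κ} {j : ν} {η : ℝ} (hη : 0 < η) {k₀ P Q' P' : ℕ} (hP : 1 ≤ P)
    (h : ∀ i m : ℕ, i + k₀ ≤ P * m → ∀ x w z v, QJ (A β) x w z v →
      WF A (S j) c (A (i • β) x) (A (i • β) w) → WF A (U k) η x z →
      WF A (U k) c (A (-((Q' * m) • β)) w) (A (-((Q' * m) • β)) v) ∧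
      WF A {β} c (A ((P' * m) • β) z) (A ((P' * m) • β) v)) :
    ∃ C ≥ (0 : ℝ), ∀ (i i₁ : ℕ) (x w z v : X), QJ (A β) x w z v → SL A S β c j i x w →
      UL A U β c k i₁ x z →
      (∀ n : ℕ, i₁ + (Q' / P : ℝ) * (i + i₁) + C ≤ n → UL A U β c k n w v) ∧
      ∀ n : ℕ, (P' / P : ℝ) * (i + i₁) + C ≤ n → WF A {β} c (A (n • β) z) (A (n • β) v) := by
  obtain ⟨i₀, hi₀⟩ := dec_pow (c := c) hη
  have hP0 : (0 : ℝ) < P := by exact_mod_cast hP
  refine ⟨i₀ + (Q' / P : ℝ) * (i₀ + k₀) + Q' + ((P' / P : ℝ) * (i₀ + k₀) + P'), by positivity,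
    fun i i₁ x w z v hQ hs hd => ?_⟩
  set s₀ : ℕ := i₁ + i₀ with hs₀
  set m : ℕ := (i + s₀ + k₀) / P + 1 with hm
  have hPm : i + s₀ + k₀ ≤ P * m := (Nat.lt_mul_div_succ (i + s₀ + k₀) (by omega)).le
  have hm1 : (m : ℝ) ≤ (i + i₁ + i₀ + k₀) / P + 1 := by
    rw [hm]
    push_cast
    have : (((i + s₀ + k₀) / P : ℕ) : ℝ) ≤ ((i + s₀ + k₀ : ℕ) : ℝ) / P := Nat.cast_div_le
    refine add_le_add (this.trans ?_) le_rfl
    apply div_le_div_of_nonneg_right _ hP0.le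
    rw [hs₀]
    push_cast
    linarith
  have hQ1 := qj_act hA hQ (-(s₀ • β))
  have hs1 : WF A (S j) c (A ((i + s₀) • β) (A (-(s₀ • β)) x))
      (A ((i + s₀) • β) (A (-(s₀ • β)) w)) := by
    rw [← hA, ← hA, add_smul, add_neg_cancel_right]
    exact hs
  have hd1 : WF A (U k) η (A (-(s₀ • β)) x) (A (-(s₀ • β)) z) := by
    have h1 := wf_bw hA (hβU k) hg hd i₀
    rw [← hA, ← hA, ← neg_add, ← add_smul, add_comm i₀ i₁] at h1
    exact h1.mono le_rfl (hi₀ _ le_rfl)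
  obtain ⟨h1, h2⟩ := h (i + s₀) m hPm _ _ _ _ hQ1 hs1 hd1
  have hQm : ((Q' * m : ℕ) : ℝ) ≤ (Q' / P : ℝ) * (i + i₁) + (Q' / P : ℝ) * (i₀ + k₀) + Q' := by
    push_cast
    calc (Q' : ℝ) * m ≤ Q' * ((i + i₁ + i₀ + k₀) / P + 1) :=
          mul_le_mul_of_nonneg_left hm1 (Nat.cast_nonneg _)
      _ = _ := by ring
  have hPm' : ((P' * m : ℕ) : ℝ) ≤ (P' / P : ℝ) * (i + i₁) + (P' / P : ℝ) * (i₀ + k₀) + P' := by
    push_cast
    calc (P' : ℝ) * m ≤ P' * ((i + i₁ + i₀ + k₀) / P + 1) :=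
          mul_le_mul_of_nonneg_left hm1 (Nat.cast_nonneg _)
      _ = _ := by ring
  have q1 : (0 : ℝ) ≤ (Q' / P : ℝ) * (i₀ + k₀) := by positivity
  have q2 : (0 : ℝ) ≤ (P' / P : ℝ) * (i₀ + k₀) := by positivity
  have q3 : (0 : ℝ) ≤ P' := Nat.cast_nonneg _
  have q4 : (0 : ℝ) ≤ Q' := Nat.cast_nonneg _
  have q5 : (0 : ℝ) ≤ i₀ := Nat.cast_nonneg _
  constructor
  · intro n hn
    rw [← hA, ← hA, ← neg_add, ← add_smul] at h1
    refine wf_bw' hA (hβU k) ?_ h1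
    have : ((Q' * m + s₀ : ℕ) : ℝ) ≤ n := by
      rw [Nat.cast_add, hs₀]
      push_cast at hQm ⊢
      linarith
    exact_mod_cast this
  · intro n hn
    have h3 : WF A {β} c (A ((n + s₀) • β) (A (-(s₀ • β)) z))
        (A ((n + s₀) • β) (A (-(s₀ • β)) v)) := by
      refine wf_fw' hA (Finset.mem_singleton_self _) ?_ h2
      have : ((P' * m : ℕ) : ℝ) ≤ n := by linarith
      have : P' * m ≤ n := by exact_mod_cast this
      omega
    rwa [← hA, ← hA, add_smul, add_neg_cancel_right] at h3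

section sys

variable {F : Type*} [NormedAddCommGroup F] [NormedSpace ℝ F] [FiniteDimensional ℝ F]
  {J : Type*} [Finite J] {e : X → F} {Vp Vn : G → X → Submodule ℝ F} {χ : J → G →+ ℝ}

/-- good multiples -/
theorem gd_of (hVn : ∀ u v : G, (∀ l, χ l u < 0 → χ l v < 0) → ∀ x, Vn u x ≤ Vn v x)
    (hVp : ∀ u v : G, (∀ l, 0 < χ l u → 0 < χ l v) → ∀ x, Vp u x ≤ Vp v x)
    (hHS : ∀ u : G, (∀ l, χ l u ≠ 0) → ∀ᶠ n in atTop, HS A e Vp Vn u n) {u : G}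
    (hu : ∀ l, χ l u ≠ 0) : ∀ᶠ n : ℕ in atTop, Gd A e Vp Vn χ (n • u) := by
  filter_upwards [hHS u hu, eventually_ge_atTop 1] with n hn hn1
  have hn0 : (0 : ℝ) < n := by exact_mod_cast hn1
  have e1 : ∀ l, χ l (n • u) = n * χ l u := fun l => by rw [map_nsmul, nsmul_eq_mul]
  obtain ⟨T, h1, h2, h3, h4⟩ := hn
  refine ⟨⟨T, h1, h2, fun x => ?_, fun x => ?_⟩, fun l => ?_⟩
  · rw [h3]
    apply le_antisymm
    · refine hVn _ _ (fun l hl => ?_) x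
      rw [e1]
      exact mul_neg_of_pos_of_neg hn0 hl
    · refine hVn _ _ (fun l hl => ?_) x
      rw [e1] at hl
      by_contra h
      push Not at h
      have := mul_nonneg hn0.le h
      linarith
  · rw [h4]
    apply le_antisymm
    · refine hVp _ _ (fun l hl => ?_) x
      rw [e1]
      exact mul_pos hn0 hl
    · refine hVp _ _ (fun l hl => ?_) x
      rw [e1] at hl
      exact pos_of_mul_pos_left' hn0 hl
  · rw [e1]
    exact mul_ne_zero hn0.ne' (hu l)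

/-- the exchange properties for one pair -/
theorem exch (hA : Act A) (hSpl : Spl Vp Vn χ)
    (hVn : ∀ u v : G, (∀ l, χ l u < 0 → χ l v < 0) → ∀ x, Vn u x ≤ Vn v x)
    (hVp : ∀ u v : G, (∀ l, 0 < χ l u → 0 < χ l v) → ∀ x, Vp u x ≤ Vp v x)
    (hHS : ∀ u : G, (∀ l, χ l u ≠ 0) → ∀ᶠ n in atTop, HS A e Vp Vn u n) {b : G}
    (hb : ∀ l, χ l b ≠ 0) {n₀ : ℕ} (hn₀ : 1 ≤ n₀) {c c₁ : ℝ} (hg : LP (A (n₀ • b)) c)
    (T : QS (A (n₀ • b)) c₁) (hc₁ : 0 < c₁) (hT : T.Q = QJ (A (n₀ • b)))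
    (hβS : ∀ j, n₀ • b ∈ S j) (hβU : ∀ k, -(n₀ • b) ∈ U k) {k : κ} {j : ν} {k' j' : J}
    (hk' : 0 < χ k' b) (hj' : χ j' b < 0) {F' : Finset G}
    (hUk : ∀ u ∈ U k, Gd A e Vp Vn χ u) (hSj : ∀ u ∈ S j, Gd A e Vp Vn χ u)
    (hF' : ∀ u ∈ F', Gd A e Vp Vn χ u)
    (iU : ∀ v, χ k' v < 0 → Ind χ (U k) v) (iS : ∀ v, (∀ l, χ l v ≠ 0) → χ j' v < 0 → Ind χ (S j) v)
    (iF : ∀ v ∈ F', χ k' v < 0 ∧ χ j' v < 0)
    (i2 : ∀ v ∈ U k, ∀ l, χ l (-(n₀ • b)) < 0 → (∀ u ∈ F', χ l u < 0) → χ l v < 0)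
    {d : G} (hdk : χ k' d < 0) (hdj : χ j' d < 0) :
    (∀ ε > 0, ∃ C ≥ (0 : ℝ), ∀ (i i₁ : ℕ) (x w z v : X), QJ (A (n₀ • b)) x w z v →
      SL A S (n₀ • b) c j i x w → UL A U (n₀ • b) c k i₁ x z → ∀ n : ℕ,
      i₁ + ε * (i + i₁) + C ≤ n → UL A U (n₀ • b) c k n w v) ∧
    ∃ Λ ≥ (0 : ℝ), ∃ C ≥ (0 : ℝ), ∀ (i i₁ : ℕ) (x w z v : X), QJ (A (n₀ • b)) x w z v →
      SL A S (n₀ • b) c j i x w → UL A U (n₀ • b) c k i₁ x z → ∀ n : ℕ, Λ * (i + i₁) + C ≤ n →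
      WF A {n₀ • b} c (A (n • n₀ • b) z) (A (n • n₀ • b) v) := by
  obtain ⟨D, hD1, hD⟩ := fin_bound fun _ : Unit => -χ k' d / χ k' b
  obtain ⟨Λ, hΛ1, hΛ⟩ := fin_bound fun l : J =>
    2 + (2 * χ k' b / (-χ k' d) + 1) * |χ l d| / |χ l b|
  have key : ∀ N : ℕ, 1 ≤ N → ∃ C ≥ (0 : ℝ), ∀ (i i₁ : ℕ) (x w z v : X),
      QJ (A (n₀ • b)) x w z v → SL A S (n₀ • b) c j i x w → UL A U (n₀ • b) c k i₁ x z →
      (∀ n : ℕ, i₁ + (D / N : ℝ) * (i + i₁) + C ≤ n → UL A U (n₀ • b) c k n w v) ∧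
      ∀ n : ℕ, (Λ : ℝ) * (i + i₁) + C ≤ n →
        WF A {n₀ • b} c (A (n • n₀ • b) z) (A (n • n₀ • b) v) := by
    intro N hN
    obtain ⟨M, hM, a, r0, r1, r2, r3, s0, s1, s2, s3⟩ :=
      near_wall2 χ hb hk' hj' hdk hdj (hD ()) hΛ hN
    have r2' : ∀ l, χ l (-((D * M) • b + a)) ≠ 0 := fun l => by
      rw [map_neg]
      exact neg_ne_zero.2 (r2 l)
    have htend : Tendsto (fun n : ℕ => n * n₀) atTop atTop :=
      tendsto_id.atTop_mul_const' (by omega)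
    obtain ⟨t, ⟨⟨⟨g0, g1⟩, g2⟩, g3⟩, ht⟩ := (((((htend.eventually (gd_of hVn hVp hHS r0)).and
      (htend.eventually (gd_of hVn hVp hHS r1))).and
      (htend.eventually (gd_of hVn hVp hHS r2'))).and
      (htend.eventually (gd_of hVn hVp hHS r3))).and (eventually_ge_atTop 1)).exists
    set s : ℕ := t * n₀ with hs
    have hs0 : (0 : ℝ) < s := by
      have : 1 ≤ s := Nat.one_le_iff_ne_zero.2 (by positivity)
      exact_mod_cast this
    have e1 : s • a - (N * M * t) • n₀ • b = s • (a - (N * M) • b) := by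
      rw [smul_sub, smul_smul, smul_smul, hs]
      congr 2
      ring
    have e2 : -((D * M * t) • n₀ • b + s • a) = s • -((D * M) • b + a) := by
      rw [smul_neg, smul_add, smul_smul, smul_smul, hs]
      congr 3
      ring
    have e3 : (Λ * N * M * t) • n₀ • b - s • a = s • ((Λ * N * M) • b - a) := by
      rw [smul_sub, smul_smul, smul_smul, hs]
      congr 2
      ring
    have es : ∀ l u, χ l (s • u) = s * χ l u := fun l u => by rw [map_nsmul, nsmul_eq_mul]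
    obtain ⟨η, hη, k₀, hsw⟩ := swap (P := N * M * t) (Q' := D * M * t) (P' := Λ * N * M * t)
      hA hSpl hg T hc₁ hT hUk hSj hF' (hβU k) (hβS j)
      (fun v hv => ⟨iS v (hF' v hv).2 (iF v hv).2, iU v (iF v hv).1⟩) i2 g0
      (iU _ (by rw [es]; exact mul_neg_of_pos_of_neg hs0 s0)) (by rw [e1]; exact g1)
      (by
        rw [e1]
        exact iS _ g1.2 (by rw [es]; exact mul_neg_of_pos_of_neg hs0 s1))
      (by rw [e2]; exact g2)
      (by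
        rw [e2]
        exact iU _ (by
          rw [es, map_neg]
          exact mul_neg_of_pos_of_neg hs0 (by linarith)))
      (by rw [e3]; exact g3)
      (fun l hl => by
        rw [e3, es]
        refine mul_neg_of_pos_of_neg hs0 (s3 l ?_)
        rw [map_nsmul, nsmul_eq_mul] at hl
        by_contra h
        push Not at h
        have := mul_nonneg (Nat.cast_nonneg n₀ : (0 : ℝ) ≤ n₀) h
        linarith)
    have hP : 1 ≤ N * M * t := Nat.one_le_iff_ne_zero.2 (by positivity)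
    obtain ⟨C, hC, h1⟩ := swap_levels hA hg hβS hβU hη hP hsw
    have hN0 : (0 : ℝ) < N := by exact_mod_cast hN
    have hM0 : (0 : ℝ) < M := by exact_mod_cast hM
    have ht0 : (0 : ℝ) < t := by exact_mod_cast ht
    have f1 : ((D * M * t : ℕ) : ℝ) / ((N * M * t : ℕ) : ℝ) = D / N := by
      push_cast
      field_simp
    have f2 : ((Λ * N * M * t : ℕ) : ℝ) / ((N * M * t : ℕ) : ℝ) = Λ := by
      push_cast
      field_simp
    rw [f1, f2] at h1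
    exact ⟨C, hC, h1⟩
  constructor
  · intro ε hε
    obtain ⟨N, hN⟩ := exists_nat_gt (D / ε)
    have hN1 : 1 ≤ N := by
      have : (0 : ℝ) ≤ D / ε := by positivity
      have : (0 : ℝ) < N := by linarith
      exact_mod_cast this
    obtain ⟨C, hC, h1⟩ := key N hN1
    refine ⟨C, hC, fun i i₁ x w z v hQ hs hd n hn => (h1 i i₁ x w z v hQ hs hd).1 n ?_⟩
    have hN0 : (0 : ℝ) < N := by exact_mod_cast hN1
    have h2 : (D : ℝ) / N ≤ ε := by
      rw [div_le_iff₀ hN0]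
      rw [div_lt_iff₀ hε] at hN
      linarith
    have h3 : (D / N : ℝ) * ((i : ℝ) + i₁) ≤ ε * (i + i₁) :=
      mul_le_mul_of_nonneg_right h2 (by positivity)
    linarith
  · obtain ⟨C, hC, h1⟩ := key 1 le_rfl
    exact ⟨Λ, Nat.cast_nonneg _, C, hC, fun i i₁ x w z v hQ hs hd => (h1 i i₁ x w z v hQ hs hd).2⟩

end sys

end Pool.Agent.NH49.TB
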