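import Pool.Agent.NH49.TB.T5

set_option autoImplicit false
set_option linter.unusedSectionVars false

open Filter Topology Set Metric

namespace Pool.Agent.NH49.TB

open Pool.Agent.H721R2 Pool.Agent.H789R2.AN Pool.Agent.H789R2.GP Pool.Agent.TH304.K289
open Pool.Agent.TH304.K289.J919 (lf_of_gps)
open Pool.Agent.TH289.L Pool.Agent.TH289 Pool.Agent.TH289.K
open Pool.Agent.Y330.G Pool.Agent.Y330.H Pool.Agent.Y330.J Pool.Agent.NH49.TA

variable {X F : Type*} [MetricSpace X] [CompactSpace X] [NormedAddCommGroup F] [NormedSpace ℝ F]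
  [FiniteDimensional ℝ F]
  {G J : Type*} [AddCommGroup G] [Finite J] {A : G → X ≃ₜ X} {e : X → F}
  {Vp Vn : G → X → Submodule ℝ F} {χ : J → G →+ ℝ}

/-- totally nonsymplectic actions have global product structure -/
theorem abs_gps {E : Type*} [NormedAddCommGroup E]
    [NormedSpace ℝ E] [ProperSpace E] [ChartedSpace E X] [ConnectedSpace X] (hA : Act A)
    (hVn : ∀ u v : G, (∀ l, χ l u < 0 → χ l v < 0) → ∀ x, Vn u x ≤ Vn v x)
    (hVp : ∀ u v : G, (∀ l, 0 < χ l u → 0 < χ l v) → ∀ x, Vp u x ≤ Vp v x)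
    (hneg : ∀ u x, Vn (-u) x = Vp u x)
    (hHS : ∀ u : G, (∀ l, χ l u ≠ 0) → ∀ᶠ n in atTop, HS A e Vp Vn u n)
    (hSpl : Spl Vp Vn χ) (hTNS : ∀ i j, ∀ c : ℝ, 0 < c → ∃ a, χ i a ≠ -c * χ j a) (b : G)
    (hb : ∀ l, χ l b ≠ 0) :
    TopTransitive (A b) ∧ GPS (A b) ∧ ∃ π : E → X, IsCoveringMap π := by
  classical
  have hX : ULC X := ulc_of_charted (X := X) (E := E)
  have hnb : ∀ l, χ l (-b) ≠ 0 := fun l => by
    rw [map_neg]
    exact neg_ne_zero.2 (hb l)
  have hsys : ∀ u : {u : G // ∀ l, χ l u ≠ 0}, ∃ n : ℕ, 1 ≤ n ∧ HS A e Vp Vn u.1 n := fun u => by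
    obtain ⟨n, h1, h2⟩ := ((hHS u.1 u.2).and (eventually_ge_atTop 1)).exists
    exact ⟨n, h2, h1⟩
  choose n hn1 hn2 using hsys
  choose S hS1 hS2 hS3 hS4 using hn2
  have hLP : ∀ u, ∃ c, LP (A (n u • u.1)) c := fun u => by
    rw [← hS1]
    exact exists_LP (S u)
  choose cc hcLP using hLP
  let ub : {u : G // ∀ l, χ l u ≠ 0} := ⟨b, hb⟩
  let un : {u : G // ∀ l, χ l u ≠ 0} := ⟨-b, hnb⟩
  obtain ⟨ls, ε, hε, hsep⟩ := sep_of_inf (fun i : Bool => cond i (S ub) (S un)) e (by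
    intro i x
    cases i with
    | true => show (S ub).e x = e x; rw [hS2]
    | false => show (S un).e x = e x; rw [hS2]) (by
    intro x
    rw [eq_bot_iff]
    intro w hw
    have h1 := (Submodule.mem_iInf _).1 hw true
    have h2 := (Submodule.mem_iInf _).1 hw false
    have h3 : w ∈ Vn b x := by
      rw [← hS3 ub]
      exact h1
    have h4 : w ∈ Vp b x := by
      rw [← hneg, ← hS3 un]
      exact h2
    refine hSpl {b} b (fun u hu => ?_) hb (fun l hl => hl b (Finset.mem_singleton_self _)) x w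
      (fun u hu => ?_) h4
    · rw [Finset.mem_singleton.1 hu]
      exact hb
    · rw [Finset.mem_singleton.1 hu]
      exact h3)
  have h0 : ∀ u v : {u : G // ∀ l, χ l u ≠ 0}, Relation.EqvGen (fun i j =>
      Nest (A (n j • j.1)) (A (n i • i.1)) ∧
        Nest (A (n i • i.1)).symm (A (n j • j.1)).symm) u v := by
    intro u v
    have h1 := reg_conn χ hTNS u v
    induction h1 with
    | rel a b' h =>
      refine Relation.EqvGen.rel _ _ ⟨?_, ?_⟩
      · rw [← hS1, ← hS1]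
        refine nest_of_le (S b').symm (S a).symm
          (fun x => show (S b').e x = (S a).e x by rw [hS2, hS2]) (fun x => ?_) (fun x => ?_)
        · show (S b').g.symm ((S a).g.symm x) = (S a).g.symm ((S b').g.symm x)
          rw [hS1, hS1, hA.symm, hA.symm, hA.symm, hA.symm, hA.comm]
        · show (S b').Vs x ≤ (S a).Vs x
          rw [hS3, hS3]
          refine hVn _ _ (fun l hl => ?_) x
          by_contra h0
          have h1 : 0 < χ l a.1 := lt_of_le_of_ne (not_lt.mp h0) (a.2 l).symm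
          exact absurd (h l h1) (not_lt.mpr hl.le)
      · rw [← hS1, ← hS1]
        refine nest_of_le (S a) (S b') (fun x => by rw [hS2, hS2])
          (fun x => by rw [hS1, hS1, hA.comm]) (fun x => ?_)
        rw [hS4, hS4]
        exact hVp _ _ h x
    | refl a => exact Relation.EqvGen.refl _
    | symm a b _ ih => exact Relation.EqvGen.symm _ _ ih
    | trans a b c _ _ ih1 ih2 => exact Relation.EqvGen.trans _ _ _ ih1 ih2
  have hall : ∀ a s, WS (A (n ub • ub.1)) a s → Lf (A (n ub • ub.1)) a s := by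
    refine all_good' (fun u : {u : G // ∀ l, χ l u ≠ 0} => A (n u • u.1)) cc hcLP
      (fun i j x => hA.comm _ _ _) ub [ub, un] (fun j _ => ?_) hε ?_
    · exact h0 ub j
    · intro x y hxy
      refine hsep x y fun j _ => ?_
      cases j with
      | true =>
        show SR (S ub).g ε x y
        rw [hS1]
        exact hxy ub (by simp)
      | false =>
        show SR (S un).g ε x y
        rw [hS1]
        exact hxy un (by simp)
  have hLPi : LP (iterHomeo (A b) (n ub)) (cc ub) := by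
    rw [iterHomeo_eq hA]
    exact hcLP ub
  have hall' : ∀ a s, WS (iterHomeo (A b) (n ub)) a s → Lf (iterHomeo (A b) (n ub)) a s := by
    rw [iterHomeo_eq hA]
    exact hall
  obtain ⟨c', hc', ⟨T⟩⟩ := exists_IQS hLPi hX hall'
  obtain ⟨q, hq, p, hp⟩ := (S ub).exists_periodic
  rw [hS1, ← iterHomeo_eq hA] at hp
  exact ⟨trans_of_iqs rfl hLPi hc' T, gps_of_iqs (hn1 ub) rfl hLPi hc' T,
    exists_covering hLPi hc' T.toQS p q hq hp⟩

/-- the abstract theorem -/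
theorem abs_nr {E : Type*} [NormedAddCommGroup E]
    [NormedSpace ℝ E] [ProperSpace E] [ChartedSpace E X] [ConnectedSpace X] (hA : Act A)
    (hVn : ∀ u v : G, (∀ l, χ l u < 0 → χ l v < 0) → ∀ x, Vn u x ≤ Vn v x)
    (hVp : ∀ u v : G, (∀ l, 0 < χ l u → 0 < χ l v) → ∀ x, Vp u x ≤ Vp v x)
    (hneg : ∀ u x, Vn (-u) x = Vp u x)
    (hHS : ∀ u : G, (∀ l, χ l u ≠ 0) → ∀ᶠ n in atTop, HS A e Vp Vn u n)
    (hSpl : Spl Vp Vn χ) (hTNS : ∀ i j, ∀ c : ℝ, 0 < c → ∃ a, χ i a ≠ -c * χ j a) (b : G)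
    (hb : ∀ l, χ l b ≠ 0) (hP : ∃ k, 0 < χ k b) (hN : ∃ j, χ j b < 0)
    (hNR : ∀ k j l, 0 < χ k b → χ j b < 0 → 0 < χ l b → l ≠ k →
      ∃ a, χ k a < 0 ∧ χ j a < 0 ∧ 0 < χ l a) : PG X := by
  classical
  have hX : ULC X := ulc_of_charted (X := X) (E := E)
  have hnb : ∀ l, χ l (-b) ≠ 0 := fun l => by
    rw [map_neg]
    exact neg_ne_zero.2 (hb l)
  obtain ⟨-, hGPS, -⟩ := abs_gps (E := E) hA hVn hVp hneg hHS hSpl hTNS b hb
  have : Fintype {k // 0 < χ k b} := Fintype.ofFinite _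
  have : Fintype {j // χ j b < 0} := Fintype.ofFinite _
  obtain ⟨k₀, hk₀⟩ := hP
  obtain ⟨j₀, hj₀⟩ := hN
  let kk : {k // 0 < χ k b} := ⟨k₀, hk₀⟩
  let jj : {j // χ j b < 0} := ⟨j₀, hj₀⟩
  -- the elements
  have hd : ∀ (k : {k // 0 < χ k b}) (j : {j // χ j b < 0}), ∃ d, (∀ l, χ l d ≠ 0) ∧
      χ k.1 d < 0 ∧ χ j.1 d < 0 := by
    intro k j
    obtain ⟨d, hd1, -, hd3⟩ := between χ hTNS b (-b) hb hnb k.1 j.1 k.2
      (by rw [map_neg]; linarith [k.2]) j.2
    rcases lt_or_gt_of_ne (hd1 k.1) with h1 | h1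
    · exact ⟨d, hd1, h1, same_neg hd3 h1⟩
    · refine ⟨-d, fun l => by rw [map_neg]; exact neg_ne_zero.2 (hd1 l), ?_, ?_⟩
      · rw [map_neg]
        linarith
      · rw [map_neg]
        linarith [same_pos hd3 h1]
  have haK : ∀ (k : {k // 0 < χ k b}) (p : {j // χ j b < 0} × {k // 0 < χ k b}), ∃ a,
      (∀ l, χ l a ≠ 0) ∧ χ k.1 a < 0 ∧ χ p.1.1 a < 0 ∧ (p.2 ≠ k → 0 < χ p.2.1 a) := by
    rintro k ⟨j, l⟩
    by_cases hl : l = k
    · obtain ⟨d, h1, h2, h3⟩ := hd k j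
      exact ⟨d, h1, h2, h3, fun h => absurd hl h⟩
    · obtain ⟨a, h1, h2, h3⟩ := hNR k.1 j.1 l.1 k.2 j.2 l.2 (fun h => hl (Subtype.ext h))
      obtain ⟨a', h4, h5⟩ := reg_of χ a b hb
      exact ⟨a', h4, same_neg (h5 _ h1.ne) h1, same_neg (h5 _ h2.ne) h2,
        fun _ => same_pos (h5 _ h3.ne') h3⟩
  have haN : ∀ (j l : {j // χ j b < 0}), ∃ a, (∀ l, χ l a ≠ 0) ∧ χ j.1 a < 0 ∧
      ((∃ a', χ j.1 a' < 0 ∧ 0 < χ l.1 a') → 0 < χ l.1 a) := by
    intro j l
    by_cases h : ∃ a', χ j.1 a' < 0 ∧ 0 < χ l.1 a'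
    · obtain ⟨a, h1, h2⟩ := h
      obtain ⟨a', h4, h5⟩ := reg_of χ a b hb
      exact ⟨a', h4, same_neg (h5 _ h1.ne) h1, fun _ => same_pos (h5 _ h2.ne') h2⟩
    · exact ⟨b, hb, j.2, fun h' => absurd h' h⟩
  choose aK hK1 hK2 hK3 hK4 using haK
  choose aN hN1 hN2 hN3 using haN
  have hreg : ∀ a : G, (∀ l, χ l a ≠ 0) → ∀ l, χ l (-a) ≠ 0 := fun a h l => by
    rw [map_neg]
    exact neg_ne_zero.2 (h l)
  obtain ⟨n₀, ⟨⟨⟨gb, gnb⟩, gK⟩, gN⟩, hn₀⟩ := (((((gd_of hVn hVp hHS hb).and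
    (gd_of hVn hVp hHS hnb)).and
    (eventually_all.2 fun p : {k // 0 < χ k b} × {j // χ j b < 0} × {k // 0 < χ k b} =>
      (gd_of hVn hVp hHS (hK1 p.1 p.2)).and (gd_of hVn hVp hHS (hreg _ (hK1 p.1 p.2))))).and
    (eventually_all.2 fun p : {j // χ j b < 0} × {j // χ j b < 0} =>
      (gd_of hVn hVp hHS (hN1 p.1 p.2)).and (gd_of hVn hVp hHS (hreg _ (hN1 p.1 p.2))))).and
    (eventually_ge_atTop 1)).exists
  rw [smul_neg] at gnb
  have gK1 := fun k p => (gK (k, p)).1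
  have gK2 := fun k p => (gK (k, p)).2
  have gN1 := fun j l => (gN (j, l)).1
  have gN2 := fun j l => (gN (j, l)).2
  simp only [smul_neg] at gK2 gN2
  have hn0 : (0 : ℝ) < n₀ := by exact_mod_cast hn₀
  have es : ∀ l u, χ l (n₀ • u) = n₀ * χ l u := fun l u => by rw [map_nsmul, nsmul_eq_mul]
  have spos : ∀ l u, 0 < χ l u → 0 < χ l (n₀ • u) := fun l u h => by
    rw [es]
    positivity
  have sneg : ∀ l u, χ l u < 0 → χ l (n₀ • u) < 0 := fun l u h => by
    rw [es]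
    exact mul_neg_of_pos_of_neg hn0 h
  have spos' : ∀ l u, 0 < χ l (n₀ • u) → 0 < χ l u := fun l u h => by
    rw [es] at h
    exact pos_of_mul_pos_left' hn0 h
  have sneg' : ∀ l u, χ l (n₀ • u) < 0 → χ l u < 0 := fun l u h => by
    by_contra h0
    push Not at h0
    rw [es] at h
    have := mul_nonneg hn0.le h0
    linarith
  set β := n₀ • b with hβ
  let U : {k // 0 < χ k b} → Finset G := fun k =>
    insert (-β) (Finset.univ.image fun p => n₀ • aK k p)
  let S : {j // χ j b < 0} → Finset G := fun j =>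
    insert β (Finset.univ.image fun l => n₀ • aN j l)
  have hβU : ∀ k, -β ∈ U k := fun k => Finset.mem_insert_self _ _
  have hβS : ∀ j, β ∈ S j := fun j => Finset.mem_insert_self _ _
  have memU : ∀ k p, n₀ • aK k p ∈ U k := fun k p =>
    Finset.mem_insert_of_mem (Finset.mem_image_of_mem _ (Finset.mem_univ p))
  have memS : ∀ j l, n₀ • aN j l ∈ S j := fun j l =>
    Finset.mem_insert_of_mem (Finset.mem_image_of_mem _ (Finset.mem_univ l))
  have hUgd : ∀ k, ∀ u ∈ U k, Gd A e Vp Vn χ u ∧ χ k.1 u < 0 := by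
    intro k u hu
    rcases Finset.mem_insert.1 hu with rfl | hu
    · refine ⟨gnb, ?_⟩
      rw [map_neg]
      linarith [spos _ _ k.2]
    · obtain ⟨p, -, rfl⟩ := Finset.mem_image.1 hu
      exact ⟨gK1 k p, sneg _ _ (hK2 k p)⟩
  have hSgd : ∀ j, ∀ u ∈ S j, Gd A e Vp Vn χ u ∧ χ j.1 u < 0 := by
    intro j u hu
    rcases Finset.mem_insert.1 hu with rfl | hu
    · exact ⟨gb, sneg _ _ j.2⟩
    · obtain ⟨l, -, rfl⟩ := Finset.mem_image.1 hu
      exact ⟨gN1 j l, sneg _ _ (hN2 j l)⟩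
  -- the directions
  have dirU : ∀ (k : {k // 0 < χ k b}) (j : {j // χ j b < 0}) l, χ l (-β) < 0 →
      (∀ p : {k // 0 < χ k b}, χ l (n₀ • aK k (j, p)) < 0) → l = k.1 := by
    intro k j l hl h
    rw [map_neg] at hl
    have hl' : 0 < χ l b := spos' _ _ (by linarith)
    by_contra hne
    have h1 := h ⟨l, hl'⟩
    have h2 := spos _ _ (hK4 k (j, ⟨l, hl'⟩) fun h0 => hne (congrArg Subtype.val h0))
    exact lt_asymm h1 h2
  have iU : ∀ k v, χ k.1 v < 0 → Ind χ (U k) v := by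
    intro k v hv l hl
    have h1 := dirU k jj l (hl _ (hβU k)) fun p => hl _ (memU k (jj, p))
    rw [h1]
    exact hv
  have iS : ∀ j v, (∀ l, χ l v ≠ 0) → χ j.1 v < 0 → Ind χ (S j) v := by
    intro j v hreg hv l hl
    have h1 : χ l b < 0 := sneg' _ _ (hl _ (hβS j))
    by_contra h0
    have h2 : 0 < χ l v := lt_of_le_of_ne (not_lt.mp h0) (hreg l).symm
    have h3 := hl _ (memS j ⟨l, h1⟩)
    have h4 := spos _ _ (hN3 j ⟨l, h1⟩ ⟨v, hv, h2⟩)
    exact lt_asymm h3 h4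
  obtain ⟨cg, hcg⟩ := gb.1.lp
  have hLPi : LP (iterHomeo (A b) n₀) cg := by rwa [iterHomeo_eq hA]
  have hlf := lf_of_gps hn₀ hLPi hX hGPS
  rw [iterHomeo_eq hA] at hlf
  have hc0 := hcg.c_pos
  obtain ⟨c₁, hc₁, T, hT⟩ := exists_QS' hcg hX hlf
  obtain ⟨c₂, hc₂, hs⟩ := exists_sl hcg
  set c₃ := min cg c₂ with hc₃
  have hc₃0 : 0 < c₃ := lt_min hc0 hc₂
  have hs3 : Sl (A β) cg c₃ := hs.mono (min_le_right _ _)
  have hex := ex_of_lf hcg hc₃0 hs3 hlf
  have hE := fun (k : {k // 0 < χ k b}) (j : {j // χ j b < 0}) =>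
    exch (S := S) (U := U) (k := k) (j := j)
      (F' := Finset.univ.image fun l : {k // 0 < χ k b} => n₀ • aK k (j, l))
      hA hSpl hVn hVp hHS hb hn₀ hcg T hc₁ hT hβS hβU k.2 j.2
      (fun u hu => (hUgd k u hu).1) (fun u hu => (hSgd j u hu).1)
      (fun u hu => by
        obtain ⟨l, -, rfl⟩ := Finset.mem_image.1 hu
        exact gK1 k (j, l))
      (iU k) (iS j)
      (fun v hv => by
        obtain ⟨l, -, rfl⟩ := Finset.mem_image.1 hv
        exact ⟨sneg _ _ (hK2 k (j, l)), sneg _ _ (hK3 k (j, l))⟩)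
      (fun v hv l hl h => by
        have h1 := dirU k j l hl fun p =>
          h _ (Finset.mem_image_of_mem _ (Finset.mem_univ p))
        rw [h1]
        exact (hUgd k v hv).2)
      (hd k j).choose_spec.2.1 (hd k j).choose_spec.2.2
  have h1 : H1 A S U β cg := fun k j => (hE k j).1
  have h2 : H2 A S U β cg := fun k j => (hE k j).2
  -- decomposition of unstable displacements
  obtain ⟨ηu, hηu, hu⟩ := chain_types hA hSpl U (fun k v hv => (hUgd k v hv).1)
    ((Finset.univ : Finset ({k // 0 < χ k b} × {j // χ j b < 0} × {k // 0 < χ k b})).toList.map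
      fun p => n₀ • aK p.1 p.2) {-β} (by
      intro u hu
      rw [Finset.mem_singleton.1 hu]
      exact gnb) (by
      intro c hc
      obtain ⟨p, -, rfl⟩ := List.mem_map.1 hc
      exact ⟨gK1 p.1 p.2, gK2 p.1 p.2⟩) (by
      intro F' hF'
      obtain ⟨f1, f2⟩ := fam_mem _ _ _ hF'
      have hβF : -β ∈ F' := f1 (Finset.mem_singleton_self _)
      by_cases h : ∃ k : {k // 0 < χ k b}, ∀ u ∈ F', χ k.1 u < 0
      · obtain ⟨k, hk⟩ := h
        refine ⟨k, fun v hv l hl => ?_⟩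
        have h3 : l = k.1 := by
          refine dirU k jj l (hl _ hβF) fun p => ?_
          rcases f2 (n₀ • aK k (jj, p)) (List.mem_map.2 ⟨(k, jj, p), by simp, rfl⟩) with h4 | h4
          · exact hl _ h4
          · have h5 := hk _ h4
            rw [map_neg] at h5
            have h6 := sneg _ _ (hK2 k (jj, p))
            linarith
        rw [h3]
        exact (hUgd k v hv).2
      · refine ⟨kk, fun v hv l hl => ?_⟩
        refine absurd ⟨⟨l, spos' _ _ ?_⟩, hl⟩ h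
        have := hl _ hβF
        rw [map_neg] at this
        linarith) hc0
  obtain ⟨i₀, hi₀⟩ := dec_pow (c := cg) hηu
  -- decomposition of stable displacements
  obtain ⟨ηs, hηs, hs⟩ := chain_types hA hSpl S (fun k v hv => (hSgd k v hv).1)
    ((Finset.univ : Finset ({j // χ j b < 0} × {j // χ j b < 0})).toList.map
      fun p => n₀ • aN p.1 p.2) {β} (by
      intro u hu
      rw [Finset.mem_singleton.1 hu]
      exact gb) (by
      intro c hc
      obtain ⟨p, -, rfl⟩ := List.mem_map.1 hc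
      exact ⟨gN1 p.1 p.2, gN2 p.1 p.2⟩) (by
      intro F' hF'
      obtain ⟨f1, f2⟩ := fam_mem _ _ _ hF'
      have hβF : β ∈ F' := f1 (Finset.mem_singleton_self _)
      by_cases h : ∃ j : {j // χ j b < 0}, ∀ u ∈ F', χ j.1 u < 0
      · obtain ⟨j, hj⟩ := h
        refine ⟨j, fun v hv l hl => ?_⟩
        have hlb : χ l b < 0 := sneg' _ _ (hl _ hβF)
        by_contra h0
        have h3 : 0 < χ l v := lt_of_le_of_ne (not_lt.mp h0) ((hSgd j v hv).1.2 l).symm
        have h4 := hN3 j ⟨l, hlb⟩ ⟨v, (hSgd j v hv).2, h3⟩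
        rcases f2 (n₀ • aN j ⟨l, hlb⟩) (List.mem_map.2 ⟨(j, ⟨l, hlb⟩), by simp, rfl⟩) with h5 | h5
        · exact lt_asymm (hl _ h5) (spos _ _ h4)
        · have h6 := hj _ h5
          rw [map_neg] at h6
          have h7 := sneg _ _ (hN2 j ⟨l, hlb⟩)
          linarith
      · exact ⟨jj, fun v hv l hl => absurd ⟨⟨l, sneg' _ _ (hl _ hβF)⟩, hl⟩ h⟩) hc0
  obtain ⟨i₂, hi₂⟩ := dec_pow (c := cg) hηs
  refine growth' hcg hX T hc₁ (min_le_left _ _) hs3 hex hc₃0 le_rfl ?_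
  intro N hN
  obtain ⟨C, hC⟩ := slow hA hcg T hT hβS hβU h1 h2 (i₂ := i₂) (fun n z v hzv => by
      have h3 := wf_fw hA (Finset.mem_singleton_self _) hcg hzv i₂
      rw [← hA, ← hA, ← add_smul, add_comm i₂ n] at h3
      exact Ch.pull (A ((n + i₂) • β)) _ _ _ (hs _ _ (h3.mono le_rfl (hi₂ _ le_rfl))))
    (i₀ := i₀) (fun x y hxy => by
      have h3 := wf_bw hA (Finset.mem_singleton_self _) hcg hxy i₀
      exact Ch.pull (A (-(i₀ • β))) _ _ _ (hu _ _ (h3.mono le_rfl (hi₀ _ le_rfl))))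
    hc₃0 N hN
  exact ⟨C, bk_of_bq hA hc0 (min_le_left _ _) hC⟩

end Pool.Agent.NH49.TB
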