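import Pool.Agent.NH49.TB.T6

set_option autoImplicit false
set_option linter.unusedSectionVars false

open Filter Topology Set Metric
open scoped Manifold ContDiff Pointwise

namespace Pool.Agent.NH49.TB

open Pool.Agent.H721R2 Pool.Agent.H789R2.AN Pool.Agent.H789R2.GP Pool.Agent.TH304.K289
open Pool.Agent.TH289.L Pool.Agent.TH289 Pool.Agent.TH289.K
open Pool.Agent.Y330.G Pool.Agent.Y330.H Pool.Agent.Y330.J Pool.Agent.NH49.TA

theorem spl_lin {V G J : Type*} [AddCommGroup V] [Module ℝ V] [AddCommGroup G]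
    (Fj : J → Submodule ℝ V) (χ : J → G →+ ℝ) (S : Finset G) (hS : ∀ u ∈ S, ∀ l, χ l u ≠ 0)
    (hd : ∀ u ∈ S, Disjoint (⨆ j : {j // χ j u < 0}, Fj j) (⨆ j : {j // 0 < χ j u}, Fj j))
    {w : V} (hw : w ∈ ⨆ j, Fj j) (hw' : ∀ u ∈ S, w ∈ ⨆ j : {j // χ j u < 0}, Fj j) :
    w ∈ ⨆ j : {j // ∀ u ∈ S, χ j u < 0}, Fj j := by
  classical
  induction S using Finset.induction_on with
  | empty =>
    have h1 : ⨆ j, Fj j ≤ ⨆ j : {j // ∀ u ∈ (∅ : Finset G), χ j u < 0}, Fj j :=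
      iSup_le fun j => le_iSup (fun j : {j // ∀ u ∈ (∅ : Finset G), χ j u < 0} => Fj j)
        ⟨j, fun u hu => absurd hu (Finset.notMem_empty u)⟩
    exact h1 hw
  | insert u S hu ih =>
    have h1 := ih (fun v hv => hS v (Finset.mem_insert_of_mem hv))
      (fun v hv => hd v (Finset.mem_insert_of_mem hv))
      (fun v hv => hw' v (Finset.mem_insert_of_mem hv))
    have h2 : ⨆ j : {j // ∀ v ∈ S, χ j v < 0}, Fj j ≤
        (⨆ j : {j // ∀ v ∈ insert u S, χ j v < 0}, Fj j) ⊔ ⨆ j : {j // 0 < χ j u}, Fj j := by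
      refine iSup_le ?_
      rintro ⟨j, hj⟩
      rcases lt_or_gt_of_ne (hS u (Finset.mem_insert_self _ _) j) with h | h
      · refine le_trans (le_iSup (fun j : {j // ∀ v ∈ insert u S, χ j v < 0} => Fj j)
          ⟨j, fun v hv => ?_⟩) le_sup_left
        rcases Finset.mem_insert.1 hv with rfl | hv
        · exact h
        · exact hj v hv
      · exact le_trans (le_iSup (fun j : {j // 0 < χ j u} => Fj j) ⟨j, h⟩) le_sup_right
    obtain ⟨a, ha, b, hb, rfl⟩ := Submodule.mem_sup.1 (h2 h1)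
    have h3 : a ∈ ⨆ j : {j // χ j u < 0}, Fj j := by
      have h4 : ⨆ j : {j // ∀ v ∈ insert u S, χ j v < 0}, Fj j ≤ ⨆ j : {j // χ j u < 0}, Fj j := by
        refine iSup_le ?_
        rintro ⟨j, hj⟩
        exact le_iSup (fun j : {j // χ j u < 0} => Fj j) ⟨j, hj u (Finset.mem_insert_self _ _)⟩
      exact h4 ha
    have h5 : b ∈ ⨆ j : {j // χ j u < 0}, Fj j := by
      have := Submodule.sub_mem _ (hw' u (Finset.mem_insert_self _ _)) h3
      rwa [add_sub_cancel_left] at this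
    have h6 : b = 0 :=
      (Submodule.disjoint_def.1 (hd u (Finset.mem_insert_self _ _))) b h5 hb
    rw [h6, add_zero]
    exact ha

section manifold

variable {E : Type*} [NormedAddCommGroup E] [NormedSpace ℝ E] [FiniteDimensional ℝ E]
  {M : Type*} [TopologicalSpace M] [T2Space M] [CompactSpace M] [ConnectedSpace M]
  [ChartedSpace E M] [IsManifold 𝓘(ℝ, E) ∞ M]

theorem man_nr {G J : Type*} [AddCommGroup G] [Finite J]
    (α : G → Diffeomorph 𝓘(ℝ, E) 𝓘(ℝ, E) M M 1) (hα : ∀ a b x, α (a + b) x = α a (α b x))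
    (χ : J → G →+ ℝ) (F : J → ∀ x : M, Submodule ℝ (TangentSpace 𝓘(ℝ, E) x))
    (hAn : ∀ a, (∀ l, χ l a ≠ 0) → IsAnosov (α a) (negField χ F a) (posField χ F a))
    (hTNS : ∀ i j, ∀ c : ℝ, 0 < c → ∃ a, χ i a ≠ -c * χ j a)
    (b : G) (hb : ∀ l, χ l b ≠ 0)
    (hNR : ∀ k j l, 0 < χ k b → χ j b < 0 → 0 < χ l b → l ≠ k →
      ∃ a, χ k a < 0 ∧ χ j a < 0 ∧ 0 < χ l a) :
    (∃ π : E → M, IsCoveringMap π ∧ Function.Surjective π) ∧ PG M ∧
      ∀ b, (∀ l, χ l b ≠ 0) → TopTransitive (α b) ∧ GPS (α b).toHomeomorph := by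
  classical
  obtain ⟨m, e, he, hemb, hinj⟩ := exists_embedding_euclidean_of_compact (I := 𝓘(ℝ, E)) (M := M)
  let _ : MetricSpace M := hemb.isEmbedding.comapMetricSpace e
  have hiso : ∀ x y : M, dist x y = ‖e x - e y‖ := fun x y => dist_eq_norm (e x) (e y)
  have he1 : ContMDiff 𝓘(ℝ, E) (𝓡 m) 1 e := he.of_le (by simp)
  have : ProperSpace E := FiniteDimensional.proper_real E
  let A : G → M ≃ₜ M := fun a => (α a).toHomeomorph
  have hA : Act A := fun a b x => hα a b x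
  let Vp : G → M → Submodule ℝ (EuclideanSpace ℝ (Fin m)) := fun u x =>
    Submodule.map (dm E e x).toLinearMap (posField χ F u x)
  let Vn : G → M → Submodule ℝ (EuclideanSpace ℝ (Fin m)) := fun u x =>
    Submodule.map (dm E e x).toLinearMap (negField χ F u x)
  have hVn : ∀ u v : G, (∀ l, χ l u < 0 → χ l v < 0) → ∀ x, Vn u x ≤ Vn v x := fun u v h x =>
    Submodule.map_mono (negField_mono χ F h x)
  have hVp : ∀ u v : G, (∀ l, 0 < χ l u → 0 < χ l v) → ∀ x, Vp u x ≤ Vp v x := fun u v h x =>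
    Submodule.map_mono (posField_mono χ F h x)
  have hHS : ∀ u : G, (∀ l, χ l u ≠ 0) → ∀ᶠ n in atTop, HS A e Vp Vn u n := by
    intro u hu
    filter_upwards [exists_sys_ev hiso he1 hinj (α u) _ _ (hAn u hu)] with n hn
    obtain ⟨S, h1, h2, h3, h4⟩ := hn
    exact ⟨S, by rw [h1]; exact iterHomeo_eq hA u n, h2, h3, h4⟩
  have hneg : ∀ u x, Vn (-u) x = Vp u x := by
    intro u x
    show Submodule.map (dm E e x).toLinearMap (negField χ F (-u) x) =
      Submodule.map (dm E e x).toLinearMap (posField χ F u x)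
    congr 1
    apply le_antisymm
    · refine negField_le χ F (fun l hl => ?_) x
      rw [map_neg] at hl
      linarith
    · unfold posField negField
      refine iSup_le ?_
      rintro ⟨j, hj⟩
      exact le_iSup (fun j : {j // χ j (-u) < 0} => F j x) ⟨j, by rw [map_neg]; linarith⟩
  have hSpl : Spl Vp Vn χ := by
    intro S v hS hv hI x w hw hwv
    obtain ⟨w', hw', rfl⟩ := hwv
    have h1 : w' ∈ ⨆ j : {j // ∀ u ∈ S, χ j u < 0}, F j.1 x := by
      refine spl_lin (fun j => F j x) χ S hS (fun u hu => ((hAn u (hS u hu)).isCompl x).disjoint)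
        ?_ (fun u hu => ?_)
      · have h2 : posField χ F v x ≤ ⨆ j, F j x := iSup_le fun j => le_iSup (fun j => F j x) j.1
        exact h2 hw'
      · obtain ⟨w'', hw'', h3⟩ := hw u hu
        rw [← hinj x h3]
        exact hw''
    have h2 : w' ∈ negField χ F v x := by
      have h3 : ⨆ j : {j // ∀ u ∈ S, χ j u < 0}, F j.1 x ≤ negField χ F v x := by
        unfold negField
        refine iSup_le ?_
        rintro ⟨j, hj⟩
        exact le_iSup (fun j : {j // χ j v < 0} => F j x) ⟨j, hI j hj⟩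
      exact h3 h1
    have h3 : w' = 0 := (Submodule.disjoint_def.1 ((hAn v hv).isCompl x).disjoint) w' h2 hw'
    rw [h3, map_zero]
  have hG : ∀ b, (∀ l, χ l b ≠ 0) → TopTransitive (A b) ∧ GPS (A b) ∧ ∃ π : E → M,
      IsCoveringMap π := fun b hb => abs_gps (E := E) hA hVn hVp hneg hHS hSpl hTNS b hb
  obtain ⟨-, -, π, hπ⟩ := hG b hb
  refine ⟨⟨π, hπ, covering_surj hπ⟩, ?_, fun b' hb' => ⟨(hG b' hb').1, (hG b' hb').2.1⟩⟩
  by_cases hP : ∃ k, 0 < χ k b
  · by_cases hN : ∃ j, χ j b < 0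
    · exact abs_nr (E := E) hA hVn hVp hneg hHS hSpl hTNS b hb hP hN hNR
    · refine (man_flip α hα χ F hAn (-b) (fun l => by rw [map_neg]; exact neg_ne_zero.2 (hb l))
        fun k hk => ?_).2.2.2
      rw [map_neg] at hk
      exact absurd ⟨k, by linarith⟩ hN
  · exact (man_flip α hα χ F hAn b hb fun k hk => absurd ⟨k, hk⟩ hP).2.2.2

/-- at most four characters -/
theorem exists_nr4 {G J : Type*} [AddCommGroup G] [Finite J] (χ : J → G →+ ℝ)
    (hJ : Nat.card J ≤ 4) (hTNS : ∀ i j, ∀ c : ℝ, 0 < c → ∃ a, χ i a ≠ -c * χ j a) :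
    ∃ b, (∀ l, χ l b ≠ 0) ∧ ∀ k j l, 0 < χ k b → χ j b < 0 → 0 < χ l b → l ≠ k →
      ∃ a, χ k a < 0 ∧ χ j a < 0 ∧ 0 < χ l a := by
  rcases isEmpty_or_nonempty J with hE | hE
  · exact ⟨0, fun l => (hE.false l).elim, fun k => (hE.false k).elim⟩
  obtain ⟨f, hf⟩ : ∃ f : J → Fin 4, Function.Injective f :=
    ⟨fun j => Fin.castLE hJ (Finite.equivFin J j),
      fun a b h => (Finite.equivFin J).injective (Fin.castLE_injective hJ h)⟩
  set p : Fin 4 → J := Function.invFun f with hp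
  have hps : Function.Surjective p := Function.invFun_surjective hf
  by_cases hno : ∀ a, ¬ ∀ l, χ (p l) a < 0
  · obtain ⟨a, q, hq, hq'⟩ := exists_sg (χ := fun l => χ (p l)) (fun i j => hTNS (p i) (p j)) hno
    refine ⟨a, fun l => ?_, fun k j l hk _ hl hlk => ?_⟩
    · obtain ⟨l, rfl⟩ := hps l
      by_cases h : l = q
      · rw [h]
        exact hq.ne'
      · exact (hq' l h).ne
    · obtain ⟨l, rfl⟩ := hps l
      obtain ⟨k, rfl⟩ := hps k
      have h1 : l = q := by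
        by_contra h
        exact lt_asymm hl (hq' l h)
      have h2 : k = q := by
        by_contra h
        exact lt_asymm hk (hq' k h)
      rw [h1, h2] at hlk
      exact absurd rfl hlk
  · push Not at hno
    obtain ⟨a, ha⟩ := hno
    have ha' : ∀ l, χ l a < 0 := fun l => by
      obtain ⟨l, rfl⟩ := hps l
      exact ha l
    exact ⟨a, fun l => (ha' l).ne, fun k _ _ hk => absurd hk (not_lt.2 (ha' k).le)⟩

theorem man_final5 {G J : Type*} [AddCommGroup G] [Finite J]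
    (α : G → Diffeomorph 𝓘(ℝ, E) 𝓘(ℝ, E) M M 1) (hα : ∀ a b x, α (a + b) x = α a (α b x))
    (χ : J → G →+ ℝ) (F : J → ∀ x : M, Submodule ℝ (TangentSpace 𝓘(ℝ, E) x))
    (hAn : ∀ a, (∀ l, χ l a ≠ 0) → IsAnosov (α a) (negField χ F a) (posField χ F a))
    (hTNS : ∀ i j, ∀ c : ℝ, 0 < c → ∃ a, χ i a ≠ -c * χ j a)
    (h : (∃ b, (∀ l, χ l b ≠ 0) ∧ ∀ k j l, 0 < χ k b → χ j b < 0 → 0 < χ l b → l ≠ k →
      ∃ a, χ k a < 0 ∧ χ j a < 0 ∧ 0 < χ l a) ∨ Nat.card J ≤ 4) :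
    (∃ π : E → M, IsCoveringMap π ∧ Function.Surjective π) ∧
    (∃ d : ℕ, ∀ (x : M) (S : Set (FundamentalGroup M x)), S.Finite →
      ∃ C : ℕ, ∀ n : ℕ, (S ^ n).ncard ≤ C * (n + 1) ^ d) ∧
    ∀ b, (∀ l, χ l b ≠ 0) → TopTransitive (α b) ∧ GPS (α b).toHomeomorph := by
  have h0 : ∃ b, (∀ l, χ l b ≠ 0) ∧ ∀ k j l, 0 < χ k b → χ j b < 0 → 0 < χ l b → l ≠ k →
      ∃ a, χ k a < 0 ∧ χ j a < 0 ∧ 0 < χ l a := by
    rcases h with h | h
    · exact h
    · exact exists_nr4 χ h hTNS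
  obtain ⟨b, hb, hNR⟩ := h0
  exact man_nr α hα χ F hAn hTNS b hb hNR

end manifold

end Pool.Agent.NH49.TB
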